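import Pool.Agent.Lib.MP_46bd4a_lc.Defs

/-!
# Branches and the iterated filter of a nonprincipal ultrafilter
-/

open Filter

namespace SelGamma

/-- the initial segment of length `n` of the branch `e` -/
def pre (e : ℕ → ℕ) (n : ℕ) : List ℕ := List.ofFn (fun i : Fin n => e i)

@[simp] lemma length_pre (e : ℕ → ℕ) (n : ℕ) : (pre e n).length = n := by simp [pre]

lemma pre_succ (e : ℕ → ℕ) (n : ℕ) : pre e (n + 1) = pre e n ++ [e n] := by
  rw [pre, List.ofFn_succ']
  simp [pre]

lemma getD_pre (e : ℕ → ℕ) {n i : ℕ} (h : i < n) : (pre e n).getD i 0 = e i := by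
  simp [pre, List.getD, h]

lemma take_pre (e : ℕ → ℕ) {n k : ℕ} (h : k ≤ n) : (pre e n).take k = pre e k := by
  apply List.ext_getElem
  · simp [h]
  · intro i h1 h2
    simp [pre]

/-- the branch which follows `σ` and then the strategy `f` -/
noncomputable def follow (f : List ℕ → ℕ) (σ : List ℕ) (n : ℕ) : ℕ :=
  if n < σ.length then σ.getD n 0 else f (List.ofFn (fun i : Fin n => follow f σ i))
termination_by n
decreasing_by exact i.2

lemma follow_lt (f : List ℕ → ℕ) (σ : List ℕ) {n : ℕ} (h : n < σ.length) :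
    follow f σ n = σ.getD n 0 := by
  rw [follow, if_pos h]

lemma follow_ge (f : List ℕ → ℕ) (σ : List ℕ) {n : ℕ} (h : σ.length ≤ n) :
    follow f σ n = f (pre (follow f σ) n) := by
  rw [follow, if_neg (not_lt.2 h)]
  rfl

lemma pre_follow (f : List ℕ → ℕ) (σ : List ℕ) : pre (follow f σ) σ.length = σ := by
  apply List.ext_getElem
  · simp
  · intro i h1 h2
    have : (pre (follow f σ) σ.length)[i] = follow f σ i := by simp [pre]
    rw [this, follow_lt f σ h2]
    simp [List.getD, h2]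

lemma exists_branch (F : List ℕ → Set ℕ) (hF : ∀ τ, F τ ∈ hyperfilter ℕ) (σ : List ℕ) :
    ∃ e, pre e σ.length = σ ∧ ∀ n, σ.length ≤ n → e n ∈ F (pre e n) := by
  have hne : ∀ τ, ∃ m, m ∈ F τ := fun τ => Ultrafilter.nonempty_of_mem (hF τ)
  choose f hf using hne
  refine ⟨follow f σ, pre_follow f σ, fun n hn => ?_⟩
  rw [follow_ge f σ hn]
  exact hf _

/-- `P` holds for almost all branches through `σ`, in the sense of a nonprincipal ultrafilter at
every node -/
def brFilter (σ : List ℕ) : Filter (ℕ → ℕ) where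
  sets := {P | ∃ F : List ℕ → Set ℕ, (∀ τ, F τ ∈ hyperfilter ℕ) ∧
    ∀ e, pre e σ.length = σ → (∀ n, σ.length ≤ n → e n ∈ F (pre e n)) → e ∈ P}
  univ_sets := ⟨fun _ => Set.univ, fun _ => univ_mem, fun _ _ _ => trivial⟩
  sets_of_superset := by
    rintro P Q ⟨F, hF, h⟩ hPQ
    exact ⟨F, hF, fun e h1 h2 => hPQ (h e h1 h2)⟩
  inter_sets := by
    rintro P Q ⟨F, hF, h⟩ ⟨G, hG, h'⟩
    exact ⟨fun τ => F τ ∩ G τ, fun τ => inter_mem (hF τ) (hG τ), fun e h1 h2 =>
      ⟨h e h1 fun n hn => (h2 n hn).1, h' e h1 fun n hn => (h2 n hn).2⟩⟩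

lemma mem_brFilter {σ : List ℕ} {P : Set (ℕ → ℕ)} : P ∈ brFilter σ ↔
    ∃ F : List ℕ → Set ℕ, (∀ τ, F τ ∈ hyperfilter ℕ) ∧
    ∀ e, pre e σ.length = σ → (∀ n, σ.length ≤ n → e n ∈ F (pre e n)) → e ∈ P := Iff.rfl

instance (σ : List ℕ) : (brFilter σ).NeBot := by
  rw [neBot_iff]
  intro h
  have : (∅ : Set (ℕ → ℕ)) ∈ brFilter σ := by rw [h]; exact mem_bot
  obtain ⟨F, hF, h'⟩ := mem_brFilter.1 this
  obtain ⟨e, he, he'⟩ := exists_branch F hF σ
  exact h' e he he'

/-- almost all branches through `σ` do go through `σ` -/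
lemma brFilter_pre (σ : List ℕ) : ∀ᶠ e in brFilter σ, pre e σ.length = σ :=
  ⟨fun _ => Set.univ, fun _ => univ_mem, fun _ h _ => h⟩

lemma pre_append_iff {e : ℕ → ℕ} {σ : List ℕ} {m : ℕ} :
    pre e (σ ++ [m]).length = σ ++ [m] ↔ pre e σ.length = σ ∧ e σ.length = m := by
  rw [List.length_append, List.length_singleton, pre_succ]
  constructor
  · intro h
    have := List.append_inj h (by simp)
    exact ⟨this.1, by simpa using this.2⟩
  · rintro ⟨h1, h2⟩
    rw [h1, h2]

lemma mem_brFilter_iff {σ : List ℕ} {P : Set (ℕ → ℕ)} :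
    P ∈ brFilter σ ↔ ∀ᶠ m in hyperfilter ℕ, P ∈ brFilter (σ ++ [m]) := by
  classical
  constructor
  · rintro ⟨F, hF, h⟩
    filter_upwards [hF σ] with m hm
    refine ⟨F, hF, fun e h1 h2 => ?_⟩
    obtain ⟨h3, h4⟩ := pre_append_iff.1 h1
    refine h e h3 fun n hn => ?_
    rcases hn.eq_or_lt with hn | hn
    · rw [← hn, h3, h4]; exact hm
    · exact h2 n (by simpa using hn)
  · intro h
    have hch : ∀ m, ∃ F : List ℕ → Set ℕ, (∀ τ, F τ ∈ hyperfilter ℕ) ∧
        (P ∈ brFilter (σ ++ [m]) → ∀ e, pre e (σ ++ [m]).length = σ ++ [m] →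
          (∀ n, (σ ++ [m]).length ≤ n → e n ∈ F (pre e n)) → e ∈ P) := by
      intro m
      by_cases hm : P ∈ brFilter (σ ++ [m])
      · obtain ⟨F, hF, h'⟩ := hm
        exact ⟨F, hF, fun _ => h'⟩
      · exact ⟨fun _ => Set.univ, fun _ => univ_mem, fun h => absurd h hm⟩
    choose F hF hF' using hch
    refine ⟨fun τ => if τ = σ then {m | P ∈ brFilter (σ ++ [m])} else F (τ.getD σ.length 0) τ,
      fun τ => ?_, fun e h1 h2 => ?_⟩
    · dsimp only
      split_ifs with hτ
      · exact h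
      · exact hF _ _
    · have h3 : e σ.length ∈ {m | P ∈ brFilter (σ ++ [m])} := by
        have := h2 σ.length le_rfl
        rw [h1] at this
        dsimp only at this
        rwa [if_pos rfl] at this
      refine hF' (e σ.length) h3 e (pre_append_iff.2 ⟨h1, rfl⟩) fun n hn => ?_
      have hn' : σ.length < n := by simpa using hn
      have h6 := h2 n hn'.le
      have h5 : pre e n ≠ σ := by
        intro h5
        have := congrArg List.length h5
        simp at this
        omega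
      dsimp only at h6
      rwa [if_neg h5, getD_pre e hn'] at h6

lemma eventually_brFilter_iff {σ : List ℕ} {P : (ℕ → ℕ) → Prop} :
    (∀ᶠ e in brFilter σ, P e) ↔ ∀ᶠ m in hyperfilter ℕ, ∀ᶠ e in brFilter (σ ++ [m]), P e :=
  mem_brFilter_iff

lemma frequently_brFilter_iff {σ : List ℕ} {P : (ℕ → ℕ) → Prop} :
    (∃ᶠ e in brFilter σ, P e) ↔ ∀ᶠ m in hyperfilter ℕ, ∃ᶠ e in brFilter (σ ++ [m]), P e := by
  rw [Filter.Frequently, eventually_brFilter_iff, ← Ultrafilter.eventually_not]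
  rfl

/-- the fusion lemma -/
lemma fusion (G : List ℕ → Prop) (hG0 : G []) (hG : ∀ σ, G σ → ∀ᶠ m in hyperfilter ℕ, G (σ ++ [m]))
    (P : ℕ → (ℕ → ℕ) → Prop) (hP : ∀ n σ, σ.length = n → G σ → ∀ᶠ e in brFilter σ, P n e) :
    ∃ e, ∀ n, P n e := by
  classical
  have hch : ∀ σ : List ℕ, ∃ F : List ℕ → Set ℕ, (∀ τ, F τ ∈ hyperfilter ℕ) ∧
      (G σ → ∀ e, pre e σ.length = σ → (∀ n, σ.length ≤ n → e n ∈ F (pre e n)) →
        P σ.length e) := by
    intro σ
    by_cases hσ : G σ
    · obtain ⟨F, hF, h⟩ := hP _ σ rfl hσ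
      exact ⟨F, hF, fun _ => h⟩
    · exact ⟨fun _ => Set.univ, fun _ => univ_mem, fun h => absurd h hσ⟩
  choose F hF hF' using hch
  obtain ⟨e, -, he⟩ := exists_branch
    (fun τ => {m | G τ → G (τ ++ [m])} ∩ ⋂ k ∈ Finset.range (τ.length + 1), F (τ.take k) τ)
    (fun τ => by
      refine inter_mem ?_ ((Filter.biInter_finset_mem _).2 fun k _ => hF _ _)
      by_cases hτ : G τ
      · filter_upwards [hG τ hτ] with m hm _ using hm
      · exact Filter.Eventually.of_forall fun m h => absurd h hτ) []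
  have hGe : ∀ n, G (pre e n) := by
    intro n
    induction n with
    | zero => simpa [pre] using hG0
    | succ n ih =>
      rw [pre_succ]
      exact (he n (by simp)).1 ih
  refine ⟨e, fun n => ?_⟩
  have := hF' (pre e n) (hGe n) e (by simp) (fun k hk => ?_)
  · simpa using this
  · have h1 := (he k (by simp)).2
    rw [length_pre] at hk
    have h2 := Set.mem_iInter₂.1 h1 n (by simp; omega)
    rwa [take_pre e hk] at h2

end SelGamma
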