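import Pool.Agent.Lib.MP_46bd4a_lc.Weight

/-!
# The combinatorial theorem
-/

open Filter

namespace SelGamma

/-- the invariants of the branch `e` on blocks `≤ q` -/
noncomputable def vv (S : (ℕ → ℕ) → Set (ℕ × ℕ)) (Z : (ℕ → ℕ) → ℕ → ℕ) (q : ℕ) (e : ℕ → ℕ)
    (i : ℕ) : ℕ × ℕ := if i ≤ q then (X (S e) i, Z e i) else (0, 0)

/-- non-calm nodes -/
def NC (S : (ℕ → ℕ) → Set (ℕ × ℕ)) (Z : (ℕ → ℕ) → ℕ → ℕ) (q : ℕ) (σ : List ℕ) : Prop :=
  ∃ c s, InLim S σ (fun e => vv S Z q e = c) s ∧ 8 * X s q + B q ≤ 8 * (c q).1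

variable {S : (ℕ → ℕ) → Set (ℕ × ℕ)} {Z : (ℕ → ℕ) → ℕ → ℕ}

lemma vv_eq {q : ℕ} {e : ℕ → ℕ} {c : ℕ → ℕ × ℕ} (h : vv S Z q e = c) {i : ℕ} (hi : i ≤ q) :
    X (S e) i = (c i).1 ∧ Z e i = (c i).2 := by
  rw [← h]
  simp [vv, hi]

lemma vv_mono {q i : ℕ} {e e' : ℕ → ℕ} (hi : i ≤ q) (h : vv S Z q e = vv S Z q e') :
    vv S Z i e = vv S Z i e' := by
  funext j
  by_cases hj : j ≤ i
  · have h1 := vv_eq (c := vv S Z q e') h (i := j) (by omega)
    have h2 := vv_eq (c := vv S Z q e') rfl (i := j) (by omega)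
    simp only [vv, hj, if_true]
    rw [h1.1, h1.2, ← h2.1, ← h2.2]
  · simp [vv, hj]

/-- hypotheses on the labelling of branches -/
structure Lab (S : (ℕ → ℕ) → Set (ℕ × ℕ)) (Z : (ℕ → ℕ) → ℕ → ℕ) : Prop where
  hZ : ∀ e l, Z e l ≤ 1
  hfin : ∀ e, {l | Z e l = 0}.Finite
  hW : ∀ e, InW (Z e) (S e)

lemma Lab.finite_vv (h : Lab S Z) (q : ℕ) : {c | ∃ e, vv S Z q e = c}.Finite := by
  obtain ⟨N, hN⟩ : ∃ N, ∀ i ≤ q, ∀ e, X (S e) i ≤ N := by
    refine ⟨∑ i ∈ Finset.range q, kap i * B (i + 1), fun i hi e => ?_⟩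
    cases i with
    | zero => rw [X_zero (h.hW e)]; exact Nat.zero_le _
    | succ i =>
      refine ((h.hW e).X_le' i).trans ?_
      exact Finset.single_le_sum (f := fun i => kap i * B (i + 1)) (fun _ _ => Nat.zero_le _)
        (Finset.mem_range.2 (by omega))
  let f : (Fin (q + 1) → Fin (N + 1) × Fin 2) → (ℕ → ℕ × ℕ) := fun α i =>
    if hi : i < q + 1 then ((α ⟨i, hi⟩).1, (α ⟨i, hi⟩).2) else (0, 0)
  refine (Set.finite_range f).subset ?_
  rintro c ⟨e, rfl⟩
  refine ⟨fun i => (⟨X (S e) i, Nat.lt_succ_of_le (hN i (by omega) e)⟩,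
    ⟨Z e i, Nat.lt_succ_of_le (h.hZ e i)⟩), ?_⟩
  funext i
  by_cases hi : i ≤ q
  · simp [f, vv, hi]
  · simp [f, vv, hi]

lemma Lab.col_le (h : Lab S Z) {τ : List ℕ} {Q : (ℕ → ℕ) → Prop} {s : Set (ℕ × ℕ)}
    (hs : InLim S τ Q s) (n : ℕ) : (s ∩ col n).encard ≤ gg n :=
  hs.bound fun e _ => (h.hW e).col_le n

lemma Lab.finite_TR (h : Lab S Z) {τ : List ℕ} {Q : (ℕ → ℕ) → Prop} {s : Set (ℕ × ℕ)}
    (hs : InLim S τ Q s) (q : ℕ) : (s ∩ TR q).Finite := by
  have h1 : s ∩ TR q ⊆ ⋃ n ∈ Finset.range (rho (q + 2)), s ∩ col n := fun p hp =>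
    Set.mem_iUnion₂.2 ⟨p.1, Finset.mem_range.2 hp.2, hp.1, rfl⟩
  refine Set.Finite.subset ?_ h1
  exact Set.Finite.biUnion (Finset.finite_toSet _) fun n _ =>
    Set.finite_of_encard_le_coe (h.col_le hs n)

lemma Lab.X_le_of (h : Lab S Z) {τ : List ℕ} {Q : (ℕ → ℕ) → Prop} {s : Set (ℕ × ℕ)}
    (hs : InLim S τ Q s) {i b : ℕ} (hb : ∀ e, Q e → X (S e) i ≤ b) : X s i ≤ b := by
  have h1 : (s ∩ Rg i).encard ≤ b := hs.bound fun e he => by
    rw [← ((h.hW e).finite_Rg i).cast_ncard_eq]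
    exact_mod_cast hb e he
  rw [← (Set.finite_of_encard_le_coe h1).cast_ncard_eq] at h1
  exact_mod_cast h1

lemma Lab.calm_zero (h : Lab S Z) : ¬ NC S Z 0 [] := by
  rintro ⟨c, s, hs, h1⟩
  obtain ⟨e, he⟩ := hs.frequently.exists
  have h2 := (vv_eq he (le_refl 0)).1
  rw [X_zero (h.hW e)] at h2
  have h3 := B_pos 0
  omega

/-- sum of the sizes on blocks `≤ q` -/
lemma Lab.sum_le (h : Lab S Z) {τ : List ℕ} {Q : (ℕ → ℕ) → Prop} {s : Set (ℕ × ℕ)}
    (hs : InLim S τ Q s) {q a : ℕ} (ha : ∀ e, Q e → X (S e) q = a) :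
    16 * ∑ i ∈ Finset.range (q + 1), X s i ≤ 16 * a + B q := by
  have h0 : X s 0 ≤ 0 := h.X_le_of hs fun e _ => (X_zero (h.hW e)).le
  have h1 : ∀ l, ∑ i ∈ Finset.range (l + 1), X s i ≤ TT l := by
    intro l
    induction l with
    | zero => rw [zero_add, Finset.sum_range_one, TT_zero]; exact h0
    | succ l ih =>
      rw [Finset.sum_range_succ, TT_succ]
      exact add_le_add ih (h.X_le_of hs fun e _ => (h.hW e).X_le' l)
  have h2 : X s q ≤ a := h.X_le_of hs fun e he => (ha e he).le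
  cases q with
  | zero => simp; omega
  | succ q =>
    rw [Finset.sum_range_succ]
    have h3 := h1 q
    have h4 := TT_le q
    omega

/-- The core argument: from limits at almost all nodes of depth `B q` above a calm node to
`H q + 1` slaloms with controlled union. -/
lemma Lab.step (h : Lab S Z) {q : ℕ} {τ : List ℕ} (hτ : τ.length = rho q) (hcalm : ¬ NC S Z q τ)
    {c : ℕ → ℕ × ℕ} {Q : (ℕ → ℕ) → Prop} (hQ : ∀ e, Q e → vv S Z q e = c)
    (R : Set (ℕ × ℕ) → Prop)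
    (hR : ∀ s s', s ∩ TR q ⊆ s' → (s' ∩ TR q).Finite → R s' → R s)
    (hIt : It (B q) τ (fun σ => ∃ s, InLim S σ Q s ∧ R s)) :
    ∃ σ : List ℕ, rho q ≤ σ.length ∧ σ.length < rho (q + 1) ∧
      ∃ (m : Fin (H q + 1) → ℕ) (s : Fin (H q + 1) → Set (ℕ × ℕ)) (s₀ : _),
        Function.Injective m ∧ (∀ i, InLim S (σ ++ [m i]) Q (s i)) ∧ InLim S σ Q s₀ ∧ R s₀ ∧
        (∀ p : ℕ × ℕ, p.1 < rho (q + 1) → (p ∈ ⋃ i, s i ↔ p ∈ s₀)) ∧
        16 * X (⋃ i, s i) (q + 1) < 16 * X s₀ (q + 1) + B (q + 1) := by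
  have hw : ∀ τ' s, InLim S τ' Q s → wt q s < ((c q).1 - B q / 8) + B q := by
    intro τ' s hs
    have h1 := h.sum_le hs (q := q) (a := (c q).1) fun e he => (vv_eq (hQ e he) le_rfl).1
    have h2 : X s (q + 1) ≤ kap q * B (q + 1) := h.X_le_of hs fun e _ => (h.hW e).X_le' q
    have h3 : 16 * (H q + 1) * X s (q + 1) / B (q + 1) ≤ 16 * (H q + 1) * kap q := by
      apply Nat.div_le_of_le_mul
      calc 16 * (H q + 1) * X s (q + 1) ≤ 16 * (H q + 1) * (kap q * B (q + 1)) :=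
            Nat.mul_le_mul_left _ h2
        _ = B (q + 1) * (16 * (H q + 1) * kap q) := by ring
    have h4 := B_ge q
    have h5 : 64 * (H q + 1) * kap q = 4 * (16 * (H q + 1) * kap q) := by ring
    have h6 := B_pos q
    unfold wt
    omega
  have hIt' : It (B q) τ (fun σ => ∃ s, InLim S σ Q s ∧ R s ∧
      wt q s < ((c q).1 - B q / 8) + B q) := by
    refine hIt.mono fun σ _ => ?_
    rintro ⟨s, h1, h2⟩
    exact ⟨s, h1, h2, hw σ s h1⟩
  rcases core (T := TR q) (wt q) R (fun τ s hs => h.finite_TR hs q) (fun s s' => wt_mono)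
    hR (B q) _ τ hIt' with ⟨s, h1, -, h2⟩ | ⟨σ, h1, h2, s, s₀, h3, h4, h5⟩
  · exfalso
    apply hcalm
    refine ⟨c, s, h1.mono hQ, ?_⟩
    have h3 : X s q ≤ wt q s := by
      unfold wt
      rw [Finset.sum_range_succ]
      exact (Nat.le_add_left _ _).trans (Nat.le_add_right _ _)
    omega
  · have hinf : {m | InLim S (σ ++ [m]) Q (s m) ∧ s₀ ∩ TR q ⊆ s m ∧
        wt q (s m) = wt q s₀}.Infinite := by
      intro hfin
      have h6 := hyperfilter_le_cofinite hfin.compl_mem_cofinite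
      obtain ⟨m, h7, h8⟩ := (h5.and h6).exists
      exact h8 h7
    let m : Fin (H q + 1) → ℕ := fun i => (hinf.natEmbedding _ i : ℕ)
    have hm : ∀ i, InLim S (σ ++ [m i]) Q (s (m i)) ∧ s₀ ∩ TR q ⊆ s (m i) ∧
        wt q (s (m i)) = wt q s₀ := fun i => (hinf.natEmbedding _ i).2
    have hmi : Function.Injective m := fun i j hij => by
      have := (hinf.natEmbedding _).injective (Subtype.ext hij)
      exact Fin.val_injective this
    refine ⟨σ, by omega, by rw [rho_succ]; omega, m, fun i => s (m i), s₀, hmi,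
      fun i => (hm i).1, h3, h4, ?_, ?_⟩
    · intro p hp
      rw [Set.mem_iUnion]
      constructor
      · rintro ⟨i, hi⟩
        exact ((wt_eq (hm i).2.1 (h.finite_TR (hm i).1 q) (hm i).2.2).1 p hp).1 hi
      · intro hp0
        exact ⟨0, ((wt_eq (hm 0).2.1 (h.finite_TR (hm 0).1 q) (hm 0).2.2).1 p hp).2 hp0⟩
    · exact X_union_lt (fun i => (hm i).2.1) (fun i => h.finite_TR (hm i).1 q)
        (h.finite_TR h3 q) (fun i => (hm i).2.2)

/-- the conclusion of the combinatorial theorem -/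
def Concl (S : (ℕ → ℕ) → Set (ℕ × ℕ)) : Prop :=
  ∃ (q : ℕ) (σ : List ℕ), rho q ≤ σ.length ∧ σ.length < rho (q + 1) ∧
    ∃ (m : Fin (H q + 1) → ℕ) (s : Fin (H q + 1) → Set (ℕ × ℕ)) (Q : (ℕ → ℕ) → Prop),
      Function.Injective m ∧ (∀ i, InLim S (σ ++ [m i]) Q (s i)) ∧ Slm (⋃ i, s i)

/-- Response at a calm node below almost all non-calm nodes. -/
lemma Lab.caseF (h : Lab S Z) {q : ℕ} {τ : List ℕ} (hτ : τ.length = rho q)
    (hcalm : ¬ NC S Z q τ) (hF : It (B q) τ (NC S Z (q + 1))) : Concl S := by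
  obtain ⟨c, -, hc⟩ := It.exists_finset (A := (h.finite_vv (q + 1)).toFinset)
    (Φ := fun c σ => ∃ s, InLim S σ (fun e => vv S Z (q + 1) e = c) s ∧
      8 * X s (q + 1) + B (q + 1) ≤ 8 * (c (q + 1)).1) (hF.mono (by
        rintro σ - ⟨c, s, h1, h2⟩
        obtain ⟨e, he⟩ := h1.frequently.exists
        exact ⟨c, by simpa using ⟨e, he⟩, s, h1, h2⟩))
  obtain ⟨e₀, he₀⟩ : ∃ e, vv S Z (q + 1) e = c := by
    by_contra hcon
    push Not at hcon
    have h1 : It (B q) τ (fun _ => False) := hc.mono (by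
      rintro σ - ⟨s, h1, -⟩
      obtain ⟨e, he⟩ := h1.frequently.exists
      exact hcon e he)
    have h2 : It (B q) τ (fun _ => ¬ False) := by
      have : ∀ k σ, It k σ (fun _ => ¬ False) := by
        intro k
        induction k with
        | zero => exact fun σ h => h
        | succ k ih => exact fun σ => Filter.Eventually.of_forall fun m => ih _
      exact this _ _
    exact not_It.2 h2 h1
  obtain ⟨σ, h1, h2, m, s, s₀, h3, h4, h5, h6, h7, h8⟩ := h.step hτ hcalm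
    (c := vv S Z q e₀) (Q := fun e => vv S Z (q + 1) e = c)
    (fun e he => vv_mono (by omega) (he.trans he₀.symm))
    (fun s => 8 * X s (q + 1) + B (q + 1) ≤ 8 * (c (q + 1)).1)
    (fun s s' h1 h2 h3 => by
      have := X_mono_of (i := q + 1) le_rfl h1 h2
      omega) hc
  refine ⟨q, σ, h1, h2, m, s, _, h3, h4, ?_⟩
  have hlt : 16 * X (⋃ i, s i) (q + 1) + B (q + 1) < 16 * (c (q + 1)).1 := by omega
  let ζ' : ℕ → ℕ := fun i => if i ≤ q + 1 then (c i).2 else 1
  have hc2 : ∀ i, i ≤ q + 1 → (c i).2 ≤ 1 := fun i hi => by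
    rw [← (vv_eq he₀ hi).2]; exact h.hZ _ _
  have hζ' : ∀ l, ζ' l ≤ 1 := by
    intro l
    simp only [ζ']
    split_ifs with hl
    · exact hc2 l hl
    · exact le_rfl
  have hctx : Ctx S Z (fun e => vv S Z (q + 1) e = c) q s ζ' :=
    ⟨h.hZ, h.hW, fun i => ⟨_, h4 i⟩, hζ'⟩
  obtain ⟨b1, b2, b3, b4⟩ := before (a := fun i => (c i).1) (z := fun i => (c i).2) (ζ' := ζ')
    (q := q) h.hW h5 h7 (fun e he i hi => vv_eq he (by omega))
    (fun i hi => by simp only [ζ']; rw [if_pos (by omega)])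
  have hz : ∀ e, vv S Z (q + 1) e = c → 2 * code (X (⋃ i, s i)) ζ' q + ζ' (q + 1) ≤
      2 * code (X (S e)) (Z e) q + Z e (q + 1) := by
    intro e he
    have e1 : code (X (⋃ i, s i)) ζ' q ≤ code (X (S e)) (Z e) q :=
      code_mono (fun i hi => by rw [(vv_eq he (by omega)).1]; exact b2 i hi)
        (fun i hi => by simp only [ζ']; rw [if_pos (by omega), (vv_eq he (by omega)).2])
    have e2 : ζ' (q + 1) = Z e (q + 1) := by
      simp only [ζ']; rw [if_pos le_rfl, (vv_eq he le_rfl).2]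
    omega
  have hcode : ∀ e, vv S Z (q + 1) e = c →
      code (X (⋃ i, s i)) ζ' (q + 1) < code (X (S e)) (Z e) (q + 1) := by
    intro e he
    rw [code_succ, code_succ]
    have e1 : 16 * X (⋃ i, s i) (q + 1) / B (q + 1) + 1 ≤ 16 * X (S e) (q + 1) / B (q + 1) := by
      rw [← Nat.add_div_right _ (B_pos (q + 1)), (vv_eq he le_rfl).1]
      exact Nat.div_le_div_right hlt.le
    have e2 := Nat.mul_le_mul_right (16 * kap q + 1) (hz e he)
    omega
  have hblk : ((⋃ i, s i) ∩ Rg (q + 1)).encard ≤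
      ((H q + 1) ^ (2 * P q - 1 - (2 * code (X (⋃ i, s i)) ζ' q + ζ' (q + 1))) *
        B (q + 1) : ℕ) := by
    have hfin : ((⋃ i, s i) ∩ Rg (q + 1)).Finite := by
      rw [Set.iUnion_inter]
      exact Set.finite_iUnion fun i => (h.finite_TR (h4 i) q).subset fun p hp =>
        ⟨hp.1, Rg_subset_TR le_rfl hp.2⟩
    rw [← hfin.cast_ncard_eq]
    have e1 : X (⋃ i, s i) (q + 1) ≤ X (S e₀) (q + 1) := by
      rw [(vv_eq he₀ le_rfl).1]; omega
    have e2 := (h.hW e₀).X_le q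
    have e3 := hz e₀ he₀
    have e4 : (H q + 1) ^ (2 * P q - 1 - (2 * code (X (S e₀)) (Z e₀) q + Z e₀ (q + 1))) *
        B (q + 1) ≤ (H q + 1) ^ (2 * P q - 1 - (2 * code (X (⋃ i, s i)) ζ' q + ζ' (q + 1))) *
        B (q + 1) := Nat.mul_le_mul_right _ (Nat.pow_le_pow_right (by omega) (by omega))
    exact_mod_cast e1.trans (e2.trans e4)
  have hafter : ∀ l, q + 1 ≤ l → ∀ e, vv S Z (q + 1) e = c →
      2 * code (X (⋃ i, s i)) ζ' l + ζ' (l + 1) < 2 * code (X (S e)) (Z e) l + Z e (l + 1) :=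
    fun l hl => hctx.after (l₀ := q + 1) (by omega) (fun e he => by
      have e1 := hcode e he
      have e2 := hζ' (q + 1 + 1)
      omega) hl
  refine ⟨ζ', hζ', (Set.finite_Iic (q + 1)).subset ?_, ⟨b1, fun l => ?_, fun l n n1 n2 => ?_⟩⟩
  · intro l hl
    by_contra hcon
    have hcon' : ¬ l ≤ q + 1 := hcon
    have hl' : ζ' l = 0 := hl
    simp only [ζ', if_neg hcon'] at hl'
    exact one_ne_zero hl'
  · rcases lt_trichotomy l q with hl | hl | hl
    · exact b3 l hl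
    · rw [hl]; exact hblk
    · exact (hctx.blk_step hl.le (hafter l hl)).1
  · rcases lt_trichotomy l q with hl | hl | hl
    · exact b4 l hl n n1 n2
    · subst hl
      exact hctx.pt_step le_rfl hcode n n1 n2
    · exact hctx.pt_step hl.le (hctx.blk_step hl.le (hafter l hl)).2 n n1 n2

/-- Response at a calm node when a digit can be decreased. -/
lemma Lab.caseFr (h : Lab S Z) {q : ℕ} {τ : List ℕ} (hτ : τ.length = rho q)
    (hcalm : ¬ NC S Z q τ) (hF : ∃ᶠ e in brFilter τ, Z e (q + 1) = 1) : Concl S := by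
  obtain ⟨c, hc⟩ : ∃ c, ∃ᶠ e in brFilter τ, vv S Z q e = c ∧ Z e (q + 1) = 1 := by
    by_contra hcon
    have h1 : ∀ c ∈ (h.finite_vv q).toFinset, ∀ᶠ e in brFilter τ,
        ¬ (vv S Z q e = c ∧ Z e (q + 1) = 1) := fun c _ =>
      Filter.not_frequently.1 (not_exists.1 hcon c)
    have h2 := (Filter.eventually_all_finset _).2 h1
    obtain ⟨e, h3, h4⟩ := (hF.and_eventually h2).exists
    exact h4 (vv S Z q e) (by simp) ⟨rfl, h3⟩
  obtain ⟨e₀, he₀⟩ := hc.exists
  obtain ⟨σ, h1, h2, m, s, s₀, h3, h4, h5, -, h7, -⟩ := h.step hτ hcalm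
    (c := c) (Q := fun e => vv S Z q e = c ∧ Z e (q + 1) = 1)
    (fun e he => he.1) (fun _ => True) (fun _ _ _ _ _ => trivial)
    ((It_frequently hc).mono fun σ _ hσ => by
      obtain ⟨s, hs⟩ := exists_inLim hσ
      exact ⟨s, hs, trivial⟩)
  refine ⟨q, σ, h1, h2, m, s, _, h3, h4, ?_⟩
  let ζ' : ℕ → ℕ := fun i => if i ≤ q then (c i).2 else if i = q + 1 then 0 else 1
  have hc2 : ∀ i, i ≤ q → (c i).2 ≤ 1 := fun i hi => by
    rw [← (vv_eq he₀.1 hi).2]; exact h.hZ _ _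
  have hζ' : ∀ l, ζ' l ≤ 1 := by
    intro l
    simp only [ζ']
    split_ifs with hl hl'
    · exact hc2 l hl
    · exact Nat.zero_le _
    · exact le_rfl
  have hctx : Ctx S Z (fun e => vv S Z q e = c ∧ Z e (q + 1) = 1) q s ζ' :=
    ⟨h.hZ, h.hW, fun i => ⟨_, h4 i⟩, hζ'⟩
  obtain ⟨b1, b2, b3, b4⟩ := before (a := fun i => (c i).1) (z := fun i => (c i).2) (ζ' := ζ')
    (q := q) h.hW h5 h7 (fun e he i hi => vv_eq he.1 hi)
    (fun i hi => by simp only [ζ']; rw [if_pos hi])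
  have hafter : ∀ l, q ≤ l → ∀ e, (vv S Z q e = c ∧ Z e (q + 1) = 1) →
      2 * code (X (⋃ i, s i)) ζ' l + ζ' (l + 1) < 2 * code (X (S e)) (Z e) l + Z e (l + 1) :=
    fun l hl => hctx.after (l₀ := q) le_rfl (fun e he => by
      have e1 : code (X (⋃ i, s i)) ζ' q ≤ code (X (S e)) (Z e) q :=
        code_mono (fun i hi => by rw [(vv_eq he.1 hi).1]; exact b2 i hi)
          (fun i hi => by simp only [ζ']; rw [if_pos hi, (vv_eq he.1 hi).2])
      have e2 : ζ' (q + 1) = 0 := by simp [ζ']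
      have e3 := he.2
      omega) hl
  refine ⟨ζ', hζ', (Set.finite_Iic (q + 1)).subset ?_, ⟨b1, fun l => ?_, fun l n n1 n2 => ?_⟩⟩
  · intro l hl
    by_contra hcon
    have hcon' : ¬ l ≤ q + 1 := hcon
    have hl' : ζ' l = 0 := hl
    simp only [ζ', if_neg (show ¬ l ≤ q by omega), if_neg (show ¬ l = q + 1 by omega)] at hl'
    exact one_ne_zero hl'
  · rcases lt_or_ge l q with hl | hl
    · exact b3 l hl
    · exact (hctx.blk_step hl (hafter l hl)).1
  · rcases lt_or_ge l q with hl | hl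
    · exact b4 l hl n n1 n2
    · exact hctx.pt_step hl (hctx.blk_step hl (hafter l hl)).2 n n1 n2

/-- **The combinatorial theorem.** -/
theorem combK (S : (ℕ → ℕ) → Set (ℕ × ℕ)) (hS : ∀ e, Slm (S e)) : Concl S := by
  choose Z hZ1 hZ2 hZ3 using hS
  have h : Lab S Z := ⟨hZ1, hZ2, hZ3⟩
  by_contra hcon
  have hno : ∀ q τ, τ.length = rho q → ¬ NC S Z q τ →
      It (B q) τ (fun σ => ¬ NC S Z (q + 1) σ) ∧ ∀ᶠ e in brFilter τ, Z e (q + 1) = 0 := by
    intro q τ hτ hcalm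
    constructor
    · rw [← not_It]
      exact fun hF => hcon (h.caseF hτ hcalm hF)
    · have h1 : ¬ ∃ᶠ e in brFilter τ, Z e (q + 1) = 1 := fun hF => hcon (h.caseFr hτ hcalm hF)
      rw [Filter.not_frequently] at h1
      filter_upwards [h1] with e he
      have := hZ1 e (q + 1)
      omega
  obtain ⟨e, he⟩ := fusion
    (fun σ => ∃ q k, σ.length + k = rho q ∧ It k σ (fun σ => ¬ NC S Z q σ) ∧
      ∀ q' < q, rho q' < σ.length)
    ⟨0, 0, rfl, h.calm_zero, fun q' hq' => absurd hq' (Nat.not_lt_zero _)⟩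
    (by
      rintro σ ⟨q, k, h1, h2, h3⟩
      cases k with
      | zero =>
        have h4 := (hno q σ (by omega) h2).1
        obtain ⟨b, hb⟩ : ∃ b, B q = b + 1 := ⟨B q - 1, by have := B_pos q; omega⟩
        rw [hb] at h4
        refine Filter.Eventually.mono h4 fun m hm => ⟨q + 1, b, ?_, hm, fun q' hq' => ?_⟩
        · rw [List.length_append, List.length_singleton, rho_succ]; omega
        · have := rho_strictMono.monotone (show q' ≤ q by omega)
          rw [List.length_append, List.length_singleton]; omega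
      | succ k =>
        refine Filter.Eventually.mono h2 fun m hm => ⟨q, k, ?_, hm, fun q' hq' => ?_⟩
        · rw [List.length_append, List.length_singleton]; omega
        · have := h3 q' hq'
          rw [List.length_append, List.length_singleton]; omega)
    (fun n e => ∀ q, rho q = n → Z e (q + 1) = 0)
    (by
      rintro n σ hσ ⟨q, k, h1, h2, h3⟩
      by_cases hn : ∃ q', rho q' = n
      · obtain ⟨q', hq'⟩ := hn
        have h4 : q ≤ q' := by
          by_contra h5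
          have := h3 q' (by omega)
          omega
        have h5 : rho q' ≤ rho q := by omega
        have h6 : q' ≤ q := rho_strictMono.le_iff_le.1 h5
        obtain rfl : q = q' := le_antisymm h4 h6
        obtain rfl : k = 0 := by omega
        filter_upwards [(hno q σ (by omega) h2).2] with e he q'' hq''
        obtain rfl : q'' = q := rho_strictMono.injective (by omega)
        exact he
      · exact Filter.Eventually.of_forall fun e q' hq' => absurd ⟨q', hq'⟩ hn)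
  have h1 : ∀ q, Z e (q + 1) = 0 := fun q => he (rho q) q rfl
  have h2 : Set.Ici 1 ⊆ {l | Z e l = 0} := by
    intro l hl
    have hl' : 1 ≤ l := hl
    obtain ⟨q, rfl⟩ : ∃ q, l = q + 1 := ⟨l - 1, by omega⟩
    exact h1 q
  exact Set.Ici_infinite 1 ((hZ2 e).subset h2)

end SelGamma
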