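import Pool.Agent.Lib.MP_46bd4a_lc.Branch

/-!
# Iterated limits of slaloms along the branch filter
-/

open Filter

namespace SelGamma

/-- `k`-fold iterated `∀ᶠ` along the hyperfilter -/
def It : ℕ → List ℕ → (List ℕ → Prop) → Prop
  | 0, σ, Φ => Φ σ
  | k + 1, σ, Φ => ∀ᶠ m in hyperfilter ℕ, It k (σ ++ [m]) Φ

lemma It.mono {k : ℕ} {σ : List ℕ} {Φ Ψ : List ℕ → Prop} (h : It k σ Φ)
    (hΦ : ∀ τ, τ.length = σ.length + k → Φ τ → Ψ τ) : It k σ Ψ := by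
  induction k generalizing σ with
  | zero => exact hΦ σ rfl h
  | succ k ih =>
    exact Filter.Eventually.mono h fun m hm => ih hm fun τ hτ =>
      hΦ τ (by rw [hτ, List.length_append, List.length_singleton]; omega)

lemma not_It {k : ℕ} {σ : List ℕ} {Φ : List ℕ → Prop} :
    ¬ It k σ Φ ↔ It k σ (fun τ => ¬ Φ τ) := by
  induction k generalizing σ with
  | zero => rfl
  | succ k ih =>
    change (¬ ∀ᶠ m in hyperfilter ℕ, It k (σ ++ [m]) Φ) ↔
      ∀ᶠ m in hyperfilter ℕ, It k (σ ++ [m]) (fun τ => ¬ Φ τ)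
    rw [← Ultrafilter.eventually_not]
    simp only [ih]

lemma It.exists_finset {ι : Type*} {A : Finset ι} {k : ℕ} {σ : List ℕ} {Φ : ι → List ℕ → Prop}
    (h : It k σ (fun τ => ∃ a ∈ A, Φ a τ)) : ∃ a ∈ A, It k σ (Φ a) := by
  induction k generalizing σ with
  | zero => exact h
  | succ k ih =>
    have h1 : ∀ᶠ m in hyperfilter ℕ, ∃ a ∈ A, It k (σ ++ [m]) (Φ a) :=
      Filter.Eventually.mono h fun m hm => ih hm
    by_contra hcon
    push Not at hcon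
    have h2 : ∀ a ∈ A, ∀ᶠ m in hyperfilter ℕ, ¬ It k (σ ++ [m]) (Φ a) := fun a ha =>
      Ultrafilter.eventually_not.2 (hcon a ha)
    have h3 := (Filter.eventually_all_finset A).2 h2
    obtain ⟨m, ⟨a, ha, h4⟩, h5⟩ := (h1.and h3).exists
    exact h5 a ha h4

lemma It_frequently {k : ℕ} {σ : List ℕ} {P : (ℕ → ℕ) → Prop} (h : ∃ᶠ e in brFilter σ, P e) :
    It k σ (fun τ => ∃ᶠ e in brFilter τ, P e) := by
  induction k generalizing σ with
  | zero => exact h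
  | succ k ih => exact Filter.Eventually.mono (frequently_brFilter_iff.1 h) fun m hm => ih hm

/-- `s` is a limit of values `S e`, for branches `e` through `σ` with `Q e` -/
def InLim (S : (ℕ → ℕ) → Set (ℕ × ℕ)) (σ : List ℕ) (Q : (ℕ → ℕ) → Prop)
    (s : Set (ℕ × ℕ)) : Prop :=
  ∀ u : Finset (ℕ × ℕ), ∃ᶠ e in brFilter σ, Q e ∧ ∀ p ∈ u, (p ∈ S e ↔ p ∈ s)

variable {S : (ℕ → ℕ) → Set (ℕ × ℕ)} {σ : List ℕ} {Q Q' : (ℕ → ℕ) → Prop} {s : Set (ℕ × ℕ)}

lemma InLim.mono (h : InLim S σ Q s) (hQ : ∀ e, Q e → Q' e) : InLim S σ Q' s := fun u =>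
  (h u).mono fun e he => ⟨hQ e he.1, he.2⟩

lemma InLim.frequently (h : InLim S σ Q s) : ∃ᶠ e in brFilter σ, Q e :=
  (h ∅).mono fun _ he => he.1

lemma exists_inLim (h : ∃ᶠ e in brFilter σ, Q e) : ∃ s, InLim S σ Q s := by
  have : (brFilter σ ⊓ 𝓟 {e | Q e}).NeBot := Filter.frequently_mem_iff_neBot.1 h
  let U : Ultrafilter (ℕ → ℕ) := Ultrafilter.of (brFilter σ ⊓ 𝓟 {e | Q e})
  have hU : (U : Filter (ℕ → ℕ)) ≤ brFilter σ ⊓ 𝓟 {e | Q e} := Ultrafilter.of_le _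
  refine ⟨{p | ∀ᶠ e in U, p ∈ S e}, fun u => ?_⟩
  have h1 : ∀ᶠ e in U, Q e := (le_principal_iff.1 (hU.trans inf_le_right))
  have h2 : ∀ᶠ e in U, ∀ p ∈ u, (p ∈ S e ↔ p ∈ {p | ∀ᶠ e in U, p ∈ S e}) := by
    refine (Filter.eventually_all_finset u).2 fun p _ => ?_
    by_cases hp : ∀ᶠ e in U, p ∈ S e
    · filter_upwards [hp] with e he
      exact ⟨fun _ => hp, fun _ => he⟩
    · filter_upwards [Ultrafilter.eventually_not.2 hp] with e he
      exact ⟨fun h => absurd h he, fun h => absurd h hp⟩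
  exact ((h1.and h2).frequently).filter_mono (hU.trans inf_le_left)

/-- the limit of a sequence of slaloms along the hyperfilter -/
def hlim (s : ℕ → Set (ℕ × ℕ)) : Set (ℕ × ℕ) := {p | ∀ᶠ m in hyperfilter ℕ, p ∈ s m}

lemma eventually_hlim (s : ℕ → Set (ℕ × ℕ)) (u : Finset (ℕ × ℕ)) :
    ∀ᶠ m in hyperfilter ℕ, ∀ p ∈ u, (p ∈ s m ↔ p ∈ hlim s) := by
  refine (Filter.eventually_all_finset u).2 fun p _ => ?_
  by_cases hp : ∀ᶠ m in hyperfilter ℕ, p ∈ s m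
  · filter_upwards [hp] with e he
    exact ⟨fun _ => hp, fun _ => he⟩
  · filter_upwards [Ultrafilter.eventually_not.2 hp] with e he
    exact ⟨fun h => absurd h he, fun h => absurd h hp⟩

lemma InLim.hlim {s : ℕ → Set (ℕ × ℕ)} (h : ∀ᶠ m in hyperfilter ℕ, InLim S (σ ++ [m]) Q (s m)) :
    InLim S σ Q (hlim s) := by
  intro u
  rw [frequently_brFilter_iff]
  filter_upwards [h, eventually_hlim s u] with m h1 h2
  exact (h1 u).mono fun e he => ⟨he.1, fun p hp => (he.2 p hp).trans (h2 p hp)⟩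

lemma eventually_subset_of_hlim {s : ℕ → Set (ℕ × ℕ)} {T : Set (ℕ × ℕ)}
    (hT : (SelGamma.hlim s ∩ T).Finite) : ∀ᶠ m in hyperfilter ℕ, SelGamma.hlim s ∩ T ⊆ s m := by
  filter_upwards [eventually_hlim s hT.toFinset] with m hm p hp
  exact (hm p (by simpa using hp)).2 hp.1

/-- bounds on the values pass to limits -/
lemma InLim.bound (h : InLim S σ Q s) {R : Set (ℕ × ℕ)} {b : ℕ}
    (hb : ∀ e, Q e → (S e ∩ R).encard ≤ b) : (s ∩ R).encard ≤ b := by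
  by_contra hcon
  have h1 : ((b + 1 : ℕ) : ℕ∞) ≤ (s ∩ R).encard := by
    rw [not_le] at hcon
    exact_mod_cast Order.add_one_le_of_lt hcon
  obtain ⟨t, ht, htc⟩ := Set.exists_subset_encard_eq h1
  have htf : t.Finite := Set.finite_of_encard_eq_coe htc
  obtain ⟨e, he, he'⟩ := (h htf.toFinset).exists
  have h2 : t ⊆ S e ∩ R := fun p hp => ⟨(he' p (by simpa using hp)).2 (ht hp).1, (ht hp).2⟩
  have h3 := (Set.encard_le_encard h2).trans (hb e he)
  rw [htc] at h3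
  have : b + 1 ≤ b := by exact_mod_cast h3
  omega

/-- The stabilisation lemma. -/
lemma core {T : Set (ℕ × ℕ)} (w : Set (ℕ × ℕ) → ℕ) (R : Set (ℕ × ℕ) → Prop)
    (hT : ∀ τ s, InLim S τ Q s → (s ∩ T).Finite)
    (hw : ∀ s s', s ∩ T ⊆ s' → (s' ∩ T).Finite → w s ≤ w s')
    (hR : ∀ s s', s ∩ T ⊆ s' → (s' ∩ T).Finite → R s' → R s) (k b : ℕ) (τ : List ℕ)
    (h : It k τ (fun σ => ∃ s, InLim S σ Q s ∧ R s ∧ w s < b + k)) :
    (∃ s, InLim S τ Q s ∧ R s ∧ w s < b) ∨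
    ∃ σ : List ℕ, τ.length ≤ σ.length ∧ σ.length < τ.length + k ∧ ∃ (s : ℕ → Set (ℕ × ℕ)) (s₀ : _),
      InLim S σ Q s₀ ∧ R s₀ ∧ ∀ᶠ m in hyperfilter ℕ,
        InLim S (σ ++ [m]) Q (s m) ∧ s₀ ∩ T ⊆ s m ∧ w (s m) = w s₀ := by
  induction k generalizing b τ with
  | zero => exact Or.inl h
  | succ k ih =>
    have h1 : ∀ᶠ m in hyperfilter ℕ, It k (τ ++ [m])
        (fun σ => ∃ s, InLim S σ Q s ∧ R s ∧ w s < (b + 1) + k) := by
      refine Filter.Eventually.mono h fun m hm => hm.mono ?_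
      rintro σ - ⟨s, h1, h2, h3⟩
      exact ⟨s, h1, h2, by omega⟩
    by_cases h2 : ∀ᶠ m in hyperfilter ℕ, ∃ s, InLim S (τ ++ [m]) Q s ∧ R s ∧ w s < b + 1
    · classical
      choose s hs using fun m => Classical.skolem.1
        (fun (h : ∃ s, InLim S (τ ++ [m]) Q s ∧ R s ∧ w s < b + 1) => h)
      let s' : ℕ → Set (ℕ × ℕ) := fun m =>
        if h : ∃ s, InLim S (τ ++ [m]) Q s ∧ R s ∧ w s < b + 1 then s m h else ∅
      have hs' : ∀ᶠ m in hyperfilter ℕ, InLim S (τ ++ [m]) Q (s' m) ∧ R (s' m) ∧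
          w (s' m) < b + 1 := by
        filter_upwards [h2] with m hm
        have := hs m hm
        simp only [s', dif_pos hm]
        exact this
      have h3 : InLim S τ Q (hlim s') := InLim.hlim (hs'.mono fun m hm => hm.1)
      have h4 := eventually_subset_of_hlim (hT τ _ h3)
      have h5 : ∀ᶠ m in hyperfilter ℕ, w (hlim s') ≤ w (s' m) ∧ R (hlim s') := by
        filter_upwards [hs', h4] with m h5 h6
        exact ⟨hw _ _ h6 (hT _ _ h5.1), hR _ _ h6 (hT _ _ h5.1) h5.2.1⟩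
      have h6 : R (hlim s') := h5.exists.choose_spec.2
      by_cases h7 : w (hlim s') < b
      · exact Or.inl ⟨_, h3, h6, h7⟩
      · refine Or.inr ⟨τ, le_rfl, by omega, s', _, h3, h6, ?_⟩
        filter_upwards [hs', h4, h5] with m h8 h9 h10
        exact ⟨h8.1, h9, by omega⟩
    · obtain ⟨m, h3, h4⟩ := ((Ultrafilter.eventually_not.2 h2).and h1).exists
      rcases ih (b + 1) (τ ++ [m]) h4 with h5 | ⟨σ, h5, h6, h7⟩
      · exact absurd h5 h3
      · refine Or.inr ⟨σ, ?_, ?_, h7⟩ <;> simp at h5 h6 <;> omega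

end SelGamma
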