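import Mathlib

/-!
# Basic definitions for MP_46bd4a_lc
-/

namespace SelGamma

/-- `r` is a weak P-point of `βℕ ∖ ℕ`: it is nonprincipal and not in the closure of any countable
set of other nonprincipal ultrafilters. -/
def WeakPPoint (r : Ultrafilter ℕ) : Prop :=
  (r : Filter ℕ) ≤ Filter.cofinite ∧
    ∀ q : ℕ → Ultrafilter ℕ, (∀ k, (q k : Filter ℕ) ≤ Filter.cofinite ∧ q k ≠ r) →
      ∃ A ∈ r, ∀ k, A ∉ q k

end SelGamma
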