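import Pool.Agent.Lib.MP_46bd4a_lc.Defs

/-!
# Kunen's theorem: weak P-points exist
-/

set_option autoImplicit false

open Set Filter Cardinal

namespace SelGamma

namespace KunenAux

/-- the countable set carrying the independent linked family -/
abbrev S : Type := Σ k : ℕ, (Set (Fin k) → Set (Set (Fin k)))

lemma S_inf : Infinite S :=
  Infinite.of_injective (fun k : ℕ => (⟨k, fun _ => ∅⟩ : S)) (fun _ _ h => congrArg Sigma.fst h)

/-- restriction of a set -/
def res (Y : Set ℕ) (k : ℕ) : Set (Fin k) := {i | (i : ℕ) ∈ Y}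

lemma res_inj (t : Set (Set ℕ)) (ht : t.Finite) : ∃ k0, ∀ k ≥ k0, Set.InjOn (fun Y => res Y k) t := by
  have hm : ∀ X Y : Set ℕ, ∃ m, X ≠ Y → ¬ (m ∈ X ↔ m ∈ Y) := by
    intro X Y
    by_cases h : X = Y
    · exact ⟨0, fun h' => absurd h h'⟩
    · have : ∃ m, ¬ (m ∈ X ↔ m ∈ Y) := by
        by_contra hc
        push Not at hc
        exact h (Set.ext hc)
      obtain ⟨m, hm⟩ := this
      exact ⟨m, fun _ => hm⟩
  choose m hm using hm
  obtain ⟨M, hM⟩ := ((ht.prod ht).image (fun p => m p.1 p.2)).bddAbove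
  refine ⟨M + 1, fun k hk X hX Y hY h => ?_⟩
  by_contra hne
  have h1 : m X Y ≤ M := hM ⟨(X, Y), ⟨hX, hY⟩, rfl⟩
  have h2 := Set.ext_iff.1 h ⟨m X Y, by omega⟩
  exact hm X Y hne h2

/-- the independent linked family -/
def A (Y X : Set ℕ) (n : ℕ) : Set S :=
  {s | (s.2 (res Y s.1)).ncard ≤ n ∧ res X s.1 ∈ s.2 (res Y s.1)}

lemma A_mono {Y X : Set ℕ} {n n' : ℕ} (h : n ≤ n') : A Y X n ⊆ A Y X n' :=
  fun _ hs => ⟨hs.1.trans h, hs.2⟩

lemma fin_lt (k0 : ℕ) : {s : S | s.1 < k0}.Finite := by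
  have : {s : S | s.1 < k0} ⊆ ⋃ k ∈ Set.Iio k0, Set.range (fun f => (⟨k, f⟩ : S)) := by
    rintro ⟨k, f⟩ hk
    simp only [Set.mem_iUnion]
    exact ⟨k, hk, f, rfl⟩
  refine Set.Finite.subset ?_ this
  exact (Set.finite_Iio k0).biUnion fun k _ => Set.finite_range _

lemma A_inter (Y : Set ℕ) (t : Set (Set ℕ)) (ht : t.Finite) (n : ℕ) (hn : n < t.ncard) :
    {s : S | ∀ X ∈ t, s ∈ A Y X n}.Finite := by
  obtain ⟨k0, hk0⟩ := res_inj t ht
  refine (fin_lt k0).subset ?_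
  rintro ⟨k, f⟩ hs
  by_contra hk
  have hk : k0 ≤ k := not_lt.1 hk
  have h1 : (fun X => res X k) '' t ⊆ f (res Y k) := by
    rintro _ ⟨X, hX, rfl⟩
    exact (hs X hX).2
  have h2 : ((fun X => res X k) '' t).ncard = t.ncard := Set.InjOn.ncard_image (hk0 k hk)
  have h3 := Set.ncard_le_ncard h1 (Set.toFinite _)
  have hne : t.Nonempty := by
    rw [← Set.ncard_pos ht]; omega
  obtain ⟨X, hX⟩ := hne
  have h4 : (f (res Y k)).ncard ≤ n := (hs X hX).1
  omega

/-- the basic sets -/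
def B (E : Set (Set ℕ × Set ℕ)) : Set S :=
  {s | ∀ p ∈ E, s ∈ A p.1 p.2 {q ∈ E | q.1 = p.1}.ncard}

lemma B_inf (E : Set (Set ℕ × Set ℕ)) (hE : E.Finite) : (B E).Infinite := by
  classical
  obtain ⟨k0, hk0⟩ := res_inj (Prod.fst '' E) (hE.image _)
  let f : (k : ℕ) → Set (Fin k) → Set (Set (Fin k)) :=
    fun k Z => {W | ∃ p ∈ E, res p.1 k = Z ∧ W = res p.2 k}
  have hf : ∀ k ≥ k0, (⟨k, f k⟩ : S) ∈ B E := by
    intro k hk p hp
    have h1 : f k (res p.1 k) = (fun q : Set ℕ × Set ℕ => res q.2 k) '' {q ∈ E | q.1 = p.1} := by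
      ext W
      constructor
      · rintro ⟨q, hq, h2, rfl⟩
        exact ⟨q, ⟨hq, hk0 k hk ⟨q, hq, rfl⟩ ⟨p, hp, rfl⟩ h2⟩, rfl⟩
      · rintro ⟨q, ⟨hq, h2⟩, rfl⟩
        exact ⟨q, hq, by rw [h2], rfl⟩
    refine ⟨?_, p, hp, rfl, rfl⟩
    change (f k (res p.1 k)).ncard ≤ _
    rw [h1]
    exact Set.ncard_image_le (hE.subset fun q hq => hq.1)
  have : Function.Injective (fun k : ℕ => (⟨k + k0, f (k + k0)⟩ : S)) := by
    intro a b h
    have := congrArg Sigma.fst h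
    simp only at this
    omega
  exact (Set.infinite_range_of_injective this).mono (by
    rintro _ ⟨k, rfl⟩; exact hf _ (by omega))

lemma B_union {E E' : Set (Set ℕ × Set ℕ)} (h : ∀ p ∈ E, ∀ q ∈ E', p.1 ≠ q.1) :
    B (E ∪ E') ⊆ B E ∩ B E' := by
  intro s hs
  constructor
  · intro p hp
    have h1 := hs p (Or.inl hp)
    have h2 : {q ∈ E ∪ E' | q.1 = p.1} = {q ∈ E | q.1 = p.1} := by
      ext q
      constructor
      · rintro ⟨hq | hq, h3⟩
        · exact ⟨hq, h3⟩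
        · exact absurd h3.symm (h p hp q hq)
      · rintro ⟨hq, h3⟩; exact ⟨Or.inl hq, h3⟩
    rwa [h2] at h1
  · intro p hp
    have h1 := hs p (Or.inr hp)
    have h2 : {q ∈ E ∪ E' | q.1 = p.1} = {q ∈ E' | q.1 = p.1} := by
      ext q
      constructor
      · rintro ⟨hq | hq, h3⟩
        · exact absurd h3 (h q hq p hp)
        · exact ⟨hq, h3⟩
      · rintro ⟨hq, h3⟩; exact ⟨Or.inr hq, h3⟩
    rwa [h2] at h1

/-- independence of the filter from the family, over the index set `J` -/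
def ILF (F : Filter S) (J : Set (Set ℕ)) : Prop :=
  F ≤ cofinite ∧ ∀ E : Set (Set ℕ × Set ℕ), E.Finite → (∀ p ∈ E, p.1 ∈ J) →
    ∀ G ∈ F, (B E ∩ G).Nonempty

lemma ILF_cofinite : ILF cofinite univ := by
  refine ⟨le_rfl, fun E hE _ G hG => ?_⟩
  rw [mem_cofinite] at hG
  obtain ⟨s, hs, hs'⟩ := ((B_inf E hE).sdiff hG).nonempty
  exact ⟨s, hs, not_not.1 hs'⟩

lemma ILF.mono {F : Filter S} {J J' : Set (Set ℕ)} (h : ILF F J) (hJ : J' ⊆ J) : ILF F J' :=
  ⟨h.1, fun E hE hE' => h.2 E hE fun p hp => hJ (hE' p hp)⟩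

/-- the diagonal set -/
def D (Y X : Set ℕ) (C : ℕ → Set S) : Set S := {s | ∃ n, s ∈ A Y X n ∧ s ∈ C n ∧ s ∉ C (n + 1)}

/-- adding an indexed family of sets to a filter -/
def ext (H : Filter S) (K : Set ℕ → Set S) : Filter S where
  sets := {U | ∃ g ∈ H, ∃ t : Set (Set ℕ), t.Finite ∧ g ∩ {s | ∀ X ∈ t, s ∈ K X} ⊆ U}
  univ_sets := ⟨univ, univ_mem, ∅, Set.finite_empty, subset_univ _⟩
  sets_of_superset := by
    rintro U V ⟨g, hg, t, ht, h⟩ hUV
    exact ⟨g, hg, t, ht, h.trans hUV⟩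
  inter_sets := by
    rintro U V ⟨g, hg, t, ht, h⟩ ⟨g', hg', t', ht', h'⟩
    refine ⟨g ∩ g', inter_mem hg hg', t ∪ t', ht.union ht', ?_⟩
    rintro s ⟨⟨h1, h2⟩, h3⟩
    exact ⟨h ⟨h1, fun X hX => h3 X (Or.inl hX)⟩, h' ⟨h2, fun X hX => h3 X (Or.inr hX)⟩⟩

lemma mem_ext {H : Filter S} {K : Set ℕ → Set S} {U : Set S} : U ∈ ext H K ↔
    ∃ g ∈ H, ∃ t : Set (Set ℕ), t.Finite ∧ g ∩ {s | ∀ X ∈ t, s ∈ K X} ⊆ U := Iff.rfl

lemma exists_diff {C : ℕ → Set S} (hC : Antitone C) (hC' : ⋂ n, C n = ∅) {s : S} {m : ℕ}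
    (hs : s ∈ C m) : ∃ n ≥ m, s ∈ C n ∧ s ∉ C (n + 1) := by
  classical
  have h1 : ∃ n, s ∉ C n := by
    by_contra hc
    push Not at hc
    have : s ∈ ⋂ n, C n := Set.mem_iInter.2 hc
    rw [hC'] at this; exact this
  have h2 := Nat.find_spec h1
  have h3 : m < Nat.find h1 := by
    by_contra hc
    exact h2 (hC (not_lt.1 hc) hs)
  obtain ⟨n, hn⟩ : ∃ n, Nat.find h1 = n + 1 := ⟨Nat.find h1 - 1, by omega⟩
  refine ⟨n, by omega, ?_, by rw [← hn]; exact h2⟩
  by_contra hc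
  have := Nat.find_min' h1 hc
  omega

lemma step (F : Filter S) (J : Set (Set ℕ)) (C : ℕ → Set S) (h : ILF F J) (hJ : J.Nonempty)
    (hC : Antitone C) (hC' : ⋂ n, C n = ∅) :
    ∃ (F' : Filter S) (R : Set (Set ℕ)), F' ≤ F ∧ R.Finite ∧ ILF F' (J \ R) ∧
      ((∃ n, (C n)ᶜ ∈ F') ∨ ((∀ n, C n ∈ F') ∧ ∃ Y, ∀ X, D Y X C ∈ F')) := by
  obtain ⟨H, hH⟩ : ∃ H : Filter S, H = F ⊓ ⨅ n, 𝓟 (C n) := ⟨_, rfl⟩
  have hHF : H ≤ F := by rw [hH]; exact inf_le_left
  have memH : ∀ U, U ∈ H ↔ ∃ g ∈ F, ∃ n, g ∩ C n ⊆ U := by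
    intro U
    rw [hH, mem_inf_iff_superset]
    have hd : Directed (· ≥ ·) (fun n => 𝓟 (C n)) := by
      intro a b
      exact ⟨max a b, principal_mono.2 (hC (le_max_left a b)),
        principal_mono.2 (hC (le_max_right a b))⟩
    constructor
    · rintro ⟨g, hg, g', hg', h1⟩
      rw [mem_iInf_of_directed hd] at hg'
      obtain ⟨n, hn⟩ := hg'
      exact ⟨g, hg, n, (Set.inter_subset_inter_right g hn).trans h1⟩
    · rintro ⟨g, hg, n, h1⟩
      exact ⟨g, hg, C n, (mem_iInf_of_directed hd _).2 ⟨n, mem_principal_self _⟩, h1⟩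
  by_cases hI : ILF H J
  · obtain ⟨Y, hY⟩ := hJ
    have hHe : ext H (fun X => D Y X C) ≤ H := fun g hg =>
      ⟨g, hg, ∅, Set.finite_empty, Set.inter_subset_left⟩
    refine ⟨ext H (fun X => D Y X C), {Y}, hHe.trans hHF, Set.finite_singleton Y, ?_, Or.inr ⟨?_, Y, ?_⟩⟩
    · refine ⟨(hHe.trans hHF).trans h.1, ?_⟩
      rintro E hE hEJ U ⟨g, hg, t, ht, hU⟩
      obtain ⟨Et, hEt⟩ : ∃ Et : Set (Set ℕ × Set ℕ), Et = (fun X => (Y, X)) '' t := ⟨_, rfl⟩
      have hd : ∀ p ∈ E, ∀ q ∈ Et, p.1 ≠ q.1 := by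
        rintro p hp q hq
        rw [hEt] at hq
        obtain ⟨X, hX, rfl⟩ := hq
        exact fun h1 => (hEJ p hp).2 h1
      have hCm : C t.ncard ∈ H := (memH _).2 ⟨univ, univ_mem, t.ncard, Set.inter_subset_right⟩
      obtain ⟨s, hs1, hs2⟩ := hI.2 (E ∪ Et) (hE.union (by rw [hEt]; exact ht.image _)) (by
        rintro p (hp | hp)
        · exact (hEJ p hp).1
        · rw [hEt] at hp
          obtain ⟨X, hX, rfl⟩ := hp
          exact hY) (g ∩ C t.ncard) (inter_mem hg hCm)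
      obtain ⟨hs3, hs4⟩ := B_union hd hs1
      refine ⟨s, hs3, hU ⟨hs2.1, fun X hX => ?_⟩⟩
      have h5 := hs4 (Y, X) (by rw [hEt]; exact ⟨X, hX, rfl⟩)
      have h6 : {q ∈ Et | q.1 = Y} = Et := by
        ext q
        constructor
        · exact fun hq => hq.1
        · intro hq
          refine ⟨hq, ?_⟩
          rw [hEt] at hq
          obtain ⟨X, hX, rfl⟩ := hq
          rfl
      have h7 : Et.ncard = t.ncard := by
        rw [hEt]
        exact Set.ncard_image_of_injective t (fun a b hab => (Prod.mk.inj hab).2)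
      simp only [h6, h7] at h5
      obtain ⟨n, hn, hn1, hn2⟩ := exists_diff hC hC' hs2.2
      exact ⟨n, A_mono hn h5, hn1, hn2⟩
    · intro n
      exact hHe ((memH _).2 ⟨univ, univ_mem, n, Set.inter_subset_right⟩)
    · intro X
      refine ⟨univ, univ_mem, {X}, Set.finite_singleton X, ?_⟩
      rintro s ⟨-, hs⟩
      exact hs X rfl
  · have : ∃ E : Set (Set ℕ × Set ℕ), E.Finite ∧ (∀ p ∈ E, p.1 ∈ J) ∧ ∃ G ∈ H, ¬ (B E ∩ G).Nonempty := by
      by_contra hc
      push Not at hc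
      apply hI
      refine ⟨hHF.trans h.1, fun E hE hEJ G hG => ?_⟩
      have := hc E hE hEJ G hG
      exact this
    obtain ⟨E, hE, hEJ, G, hG, hEG⟩ := this
    obtain ⟨g, hg, n, hgn⟩ := (memH G).1 hG
    refine ⟨F ⊓ 𝓟 (C n)ᶜ, Prod.fst '' E, inf_le_left, hE.image _, ⟨inf_le_left.trans h.1, ?_⟩,
      Or.inl ⟨n, mem_inf_of_right (mem_principal_self _)⟩⟩
    intro E' hE' hEJ' G' hG'
    rw [mem_inf_principal] at hG'
    obtain ⟨s, hs1, hs2, hs3⟩ := h.2 (E ∪ E') (hE.union hE') (by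
      rintro p (hp | hp)
      · exact hEJ p hp
      · exact (hEJ' p hp).1) (g ∩ {x | x ∈ (C n)ᶜ → x ∈ G'}) (inter_mem hg hG')
    obtain ⟨hs4, hs5⟩ := B_union (E := E) (E' := E') (by
      intro p hp q hq h1
      exact (hEJ' q hq).2 ⟨p, hp, h1⟩) hs1
    refine ⟨s, hs5, hs3 ?_⟩
    intro hsC
    exact hEG ⟨s, hs4, hgn ⟨hs2, hsC⟩⟩

/-! ### the recursion -/

/-- the tasks -/
abbrev T : Type := {C : ℕ → Set S // Antitone C ∧ ⋂ n, C n = ∅}

/-- the index set -/
abbrev I : Type := (continuum.{0}).ord.ToType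

lemma mk_T : #T ≤ continuum.{0} := by
  refine (mk_subtype_le _).trans ?_
  have h1 : #(Set S) = continuum.{0} := by
    have : Infinite S := S_inf
    rw [mk_set, mk_eq_aleph0 S, two_power_aleph0]
  have h2 : #(ℕ → Set S) = continuum.{0} := by
    rw [← power_def, h1, mk_nat, continuum_power_aleph0]
  exact h2.le

lemma exists_surj : ∃ φ : I → T, Function.Surjective φ := by
  have h : #T ≤ #I := by rw [mk_ord_toType]; exact mk_T
  obtain ⟨e⟩ := Cardinal.le_def _ _ |>.1 h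
  have : Nonempty T := ⟨⟨fun _ => ∅, fun _ _ _ => le_rfl, Set.iInter_const _⟩⟩
  exact ⟨Function.invFun e, Function.invFun_surjective e.injective⟩

lemma exists_rec {α β : Type} [LinearOrder α] [WellFoundedLT α]
    (Φ : (a : α) → (∀ b, b < a → β) → β) : ∃ f : α → β, ∀ a, f a = Φ a (fun b _ => f b) :=
  ⟨WellFounded.fix wellFounded_lt Φ, fun a => WellFounded.fix_eq _ _ _⟩

/-- the conclusion of the step lemma -/
def Good (C : ℕ → Set S) (F : Filter S) (J : Set (Set ℕ)) (p : Filter S × Set (Set ℕ)) : Prop :=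
  p.1 ≤ F ∧ p.2.Finite ∧ ILF p.1 (J \ p.2) ∧
      ((∃ n, (C n)ᶜ ∈ p.1) ∨ ((∀ n, C n ∈ p.1) ∧ ∃ Y, ∀ X, D Y X C ∈ p.1))

lemma exists_st : ∃ st : T → Filter S → Set (Set ℕ) → Filter S × Set (Set ℕ),
    ∀ C G J, ILF G J → J.Nonempty → Good C.1 G J (st C G J) := by
  have : ∀ (C : T) (G : Filter S) (J : Set (Set ℕ)), ∃ p, ILF G J → J.Nonempty → Good C.1 G J p := by
    intro C G J
    by_cases h : ILF G J ∧ J.Nonempty
    · obtain ⟨F', R, h1, h2, h3, h4⟩ := step G J C.1 h.1 h.2 C.2.1 C.2.2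
      exact ⟨(F', R), fun _ _ => ⟨h1, h2, h3, h4⟩⟩
    · exact ⟨(G, ∅), fun h1 h2 => absurd ⟨h1, h2⟩ h⟩
  choose st hst using this
  exact ⟨st, hst⟩

lemma mk_lt (a : I) : #(Set.Iio a) < continuum.{0} := by
  have := mk_Iio_lt (α := I) a (by simp)
  rwa [mk_ord_toType] at this

/-- the main recursion: a decreasing family of filters, meeting all tasks -/
lemma exists_filter : ∃ f : I → Filter S, (∀ a b, b < a → f a ≤ f b) ∧ (∀ a, f a ≤ cofinite) ∧
    (∀ a, (f a).NeBot) ∧ ∀ C : ℕ → Set S, Antitone C → ⋂ n, C n = ∅ →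
      ∃ a, (∃ n, (C n)ᶜ ∈ f a) ∨ ((∀ n, C n ∈ f a) ∧ ∃ Y, ∀ X, D Y X C ∈ f a) := by
  obtain ⟨φ, hφ⟩ := exists_surj
  obtain ⟨st, hst⟩ := exists_st
  obtain ⟨f, hf⟩ := exists_rec (α := I) (β := Filter S × Set (Set ℕ)) (fun a ih =>
    st (φ a) (cofinite ⊓ ⨅ b : Set.Iio a, (ih b.1 b.2).1) (⋃ b : Set.Iio a, (ih b.1 b.2).2)ᶜ)
  obtain ⟨G, hG⟩ : ∃ G : I → Filter S, G = fun a => cofinite ⊓ ⨅ b : Set.Iio a, (f b.1).1 :=
    ⟨_, rfl⟩
  obtain ⟨J, hJ⟩ : ∃ J : I → Set (Set ℕ), J = fun a => (⋃ b : Set.Iio a, (f b.1).2)ᶜ := ⟨_, rfl⟩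
  have hf' : ∀ a, f a = st (φ a) (G a) (J a) := by
    intro a; rw [hf, hG, hJ]
  have hGb : ∀ a b, b < a → G a ≤ (f b).1 := by
    intro a b hb
    rw [hG]
    exact inf_le_right.trans (iInf_le (fun b : Set.Iio a => (f b.1).1) ⟨b, hb⟩)
  have key : ∀ a, ILF (G a) (J a) ∧ (J a).Nonempty := by
    intro a
    induction a using WellFoundedLT.induction with
    | ind a ih =>
    have hgood : ∀ b, b < a → Good (φ b).1 (G b) (J b) (f b) := by
      intro b hb
      rw [hf' b]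
      exact hst _ _ _ (ih b hb).1 (ih b hb).2
    constructor
    · refine ⟨by rw [hG]; exact inf_le_left, fun E hE hEJ U hU => ?_⟩
      by_cases hne : Nonempty (Set.Iio a)
      · have hGa : G a = ⨅ b : Set.Iio a, (f b.1).1 := by
          rw [hG]
          obtain ⟨b⟩ := hne
          refine inf_eq_right.2 ((iInf_le (fun b : Set.Iio a => (f b.1).1) b).trans ?_)
          exact (hgood b.1 b.2).2.2.1.1
        have hd : Directed (· ≥ ·) (fun b : Set.Iio a => (f b.1).1) := by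
          intro b b'
          rcases lt_trichotomy b.1 b'.1 with h | h | h
          · exact ⟨b', (hgood b'.1 b'.2).1.trans (hGb _ _ h), le_rfl⟩
          · refine ⟨b', ?_, le_rfl⟩
            rw [Subtype.ext h]
          · exact ⟨b, le_rfl, (hgood b.1 b.2).1.trans (hGb _ _ h)⟩
        rw [hGa, mem_iInf_of_directed hd] at hU
        obtain ⟨b, hb⟩ := hU
        refine (hgood b.1 b.2).2.2.1.2 E hE (fun p hp => ?_) U hb
        have := hEJ p hp
        rw [hJ] at this ⊢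
        simp only [Set.mem_compl_iff, Set.mem_iUnion, not_exists, Set.mem_sdiff] at this ⊢
        exact ⟨fun c => this ⟨c.1, Set.mem_Iio.2 (lt_trans (Set.mem_Iio.1 c.2) (Set.mem_Iio.1 b.2))⟩, this b⟩
      · have hGa : G a = cofinite := by
          rw [hG]
          have : IsEmpty (Set.Iio a) := not_nonempty_iff.1 hne
          simp
        rw [hGa] at hU
        exact ILF_cofinite.2 E hE (fun _ _ => Set.mem_univ _) U hU
    · by_contra hc
      rw [Set.not_nonempty_iff_eq_empty] at hc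
      have h1 : (⋃ b : Set.Iio a, (f b.1).2) = Set.univ := by
        rw [hJ] at hc
        exact Set.compl_empty_iff.1 hc
      have h2 : #(⋃ b : Set.Iio a, (f b.1).2 : Set (Set ℕ)) < continuum.{0} := by
        refine (mk_iUnion_le _).trans_lt ?_
        refine (mul_le_mul_right (ciSup_le' (a := ℵ₀) fun b => ?_) _).trans_lt
          (mul_lt_of_lt aleph0_le_continuum (mk_lt a) aleph0_lt_continuum)
        exact (hgood b.1 b.2).2.1.lt_aleph0.le
      rw [h1, mk_univ, mk_set, mk_nat, two_power_aleph0] at h2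
      exact lt_irrefl _ h2
  have hgood : ∀ b, Good (φ b).1 (G b) (J b) (f b) := by
    intro b
    rw [hf' b]
    exact hst _ _ _ (key b).1 (key b).2
  refine ⟨fun a => (f a).1, fun a b hb => (hgood a).1.trans (hGb a b hb),
    fun a => (hgood a).2.2.1.1, fun a => ?_, fun C hC hC' => ?_⟩
  · rw [neBot_iff]
    intro h0
    have h0 : (f a).1 = ⊥ := h0
    have : (∅ : Set S) ∈ (f a).1 := by rw [h0]; exact mem_bot
    obtain ⟨s, hs, hs'⟩ := (hgood a).2.2.1.2 ∅ Set.finite_empty (by simp) ∅ this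
    exact hs'
  · obtain ⟨a, ha⟩ := hφ ⟨C, hC, hC'⟩
    refine ⟨a, ?_⟩
    have := (hgood a).2.2.2
    rwa [ha] at this

/-- weak P-points on `S` -/
lemma exists_wpp : ∃ r : Ultrafilter S, (r : Filter S) ≤ cofinite ∧
    ∀ q : ℕ → Ultrafilter S, (∀ k, (q k : Filter S) ≤ cofinite ∧ q k ≠ r) →
      ∃ A ∈ r, ∀ k, A ∉ q k := by
  obtain ⟨f, hmono, hcof, hne, htask⟩ := exists_filter
  obtain ⟨en, hen⟩ := exists_injective_nat S
  have hfin : ∀ n, {s : S | en s < n}.Finite := fun n =>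
    (Set.finite_Iio n).preimage hen.injOn
  have : Nonempty I := by
    obtain ⟨φ, hφ⟩ := exists_surj
    obtain ⟨a, -⟩ := hφ ⟨fun _ => ∅, fun _ _ _ => le_rfl, Set.iInter_const _⟩
    exact ⟨a⟩
  have hle : ∀ a b, b ≤ a → f a ≤ f b := by
    intro a b h
    rcases h.lt_or_eq with h | rfl
    · exact hmono a b h
    · exact le_rfl
  have hd : Directed (· ≥ ·) f := fun a b =>
    ⟨max a b, hle _ _ (le_max_left a b), hle _ _ (le_max_right a b)⟩
  obtain ⟨R, hR⟩ : ∃ R : Filter S, R = ⨅ a, f a := ⟨_, rfl⟩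
  have memR : ∀ U, U ∈ R ↔ ∃ a, U ∈ f a := by
    intro U; rw [hR, mem_iInf_of_directed hd]
  have hRc : R ≤ cofinite := by
    obtain ⟨a⟩ := (inferInstance : Nonempty I)
    rw [hR]; exact (iInf_le f a).trans (hcof a)
  have hR0 : (∅ : Set S) ∉ R := by
    intro h0
    obtain ⟨a, ha⟩ := (memR _).1 h0
    exact (hne a).ne (empty_mem_iff_bot.1 ha)
  have hult : ∀ s, sᶜ ∉ R ↔ s ∈ R := by
    intro Z
    constructor
    · intro hZ
      obtain ⟨a, ⟨n, hn⟩ | ⟨hn, -⟩⟩ := htask (fun n => Z ∩ {s | n ≤ en s}) (by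
        intro a b hab s hs
        exact ⟨hs.1, le_trans hab hs.2⟩) (by
        ext s
        simp only [Set.mem_iInter, Set.mem_empty_iff_false, iff_false, not_forall]
        refine ⟨en s + 1, fun h => ?_⟩
        have := h.2
        simp at this)
      · exfalso
        apply hZ
        have h1 : {s : S | en s < n}ᶜ ∈ R := hRc (by rw [mem_cofinite, compl_compl]; exact hfin n)
        have h2 : (Z ∩ {s | n ≤ en s})ᶜ ∈ R := (memR _).2 ⟨a, hn⟩
        filter_upwards [h1, h2] with s hs1 hs2 hs3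
        exact hs2 ⟨hs3, not_lt.1 (show ¬ en s < n from hs1)⟩
      · exact (memR _).2 ⟨a, mem_of_superset (hn 0) Set.inter_subset_left⟩
    · intro h1 h2
      apply hR0
      have := inter_mem h1 h2
      rwa [Set.inter_compl_self] at this
  obtain ⟨r, hr⟩ : ∃ r : Ultrafilter S, (r : Filter S) = R := ⟨Ultrafilter.ofComplNotMemIff R hult, rfl⟩
  refine ⟨r, by rw [hr]; exact hRc, fun q hq => ?_⟩
  have hU : ∀ k, ∃ U, U ∈ r ∧ U ∉ q k := by
    intro k
    by_contra hc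
    push Not at hc
    apply (hq k).2
    exact Ultrafilter.eq_of_le (f := q k) (g := r) (fun U hU => hc U hU)
  choose U hU1 hU2 using hU
  obtain ⟨C, hC⟩ : ∃ C : ℕ → Set S, C = fun n => {s | (∀ k < n, s ∈ U k) ∧ n ≤ en s} := ⟨_, rfl⟩
  have hanti : Antitone C := by
    rw [hC]
    intro a b hab s hs
    exact ⟨fun k hk => hs.1 k (lt_of_lt_of_le hk hab), hab.trans hs.2⟩
  have hempty : ⋂ n, C n = ∅ := by
    rw [hC]
    ext s
    simp only [Set.mem_iInter, Set.mem_empty_iff_false, iff_false, not_forall]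
    refine ⟨en s + 1, fun h => ?_⟩
    have := h.2
    omega
  have hCr : ∀ n, C n ∈ r := by
    intro n
    rw [hC]
    have h1 : {s : S | en s < n}ᶜ ∈ (r : Filter S) := by
      rw [hr]
      exact hRc (by rw [mem_cofinite, compl_compl]; exact hfin n)
    have h2 : ∀ᶠ s in (r : Filter S), ∀ k ∈ Set.Iio n, s ∈ U k :=
      (eventually_all_finite (Set.finite_Iio n)).2 fun k _ => hU1 k
    filter_upwards [h1, h2] with s hs1 hs2
    exact ⟨hs2, not_lt.1 (show ¬ en s < n from hs1)⟩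
  obtain ⟨a, ⟨n, hn⟩ | ⟨-, Y, hY⟩⟩ := htask C hanti hempty
  · exfalso
    have h1 : (C n)ᶜ ∈ r := by
      have : (C n)ᶜ ∈ (r : Filter S) := by rw [hr]; exact (memR _).2 ⟨a, hn⟩
      exact this
    exact Ultrafilter.compl_mem_iff_notMem.1 h1 (hCr n)
  · have hYr : ∀ X, D Y X C ∈ r := by
      intro X
      have : D Y X C ∈ (r : Filter S) := by rw [hr]; exact (memR _).2 ⟨a, hY X⟩
      exact this
    have hbad : ∀ k, {X | D Y X C ∈ q k}.Finite := by
      intro k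
      by_contra hinf
      obtain ⟨t, ht1, ht2, ht3⟩ := Set.Infinite.exists_subset_ncard_eq hinf (k + 2)
      have h1 : {s | ∀ X ∈ t, s ∈ D Y X C} ∈ q k := by
        have : (⋂ X ∈ t, D Y X C) ∈ (q k : Filter S) := (biInter_mem ht2).2 fun X hX => ht1 hX
        refine mem_of_superset this ?_
        intro s hs X hX
        exact Set.mem_iInter₂.1 hs X hX
      have h2 : {s | ∀ X ∈ t, s ∈ A Y X k}.Finite := A_inter Y t ht2 k (by omega)
      have h3 : {s | ∀ X ∈ t, s ∈ A Y X k}ᶜ ∈ (q k : Filter S) :=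
        (hq k).1 (by rw [mem_cofinite, compl_compl]; exact h2)
      apply hU2 k
      change U k ∈ (q k : Filter S)
      filter_upwards [h1, h3] with s hs1 hs3
      have hs4 : s ∈ C (k + 1) := by
        by_contra hs4
        apply hs3
        intro X hX
        obtain ⟨n, hn1, hn2, hn3⟩ := hs1 X hX
        have : n ≤ k := by
          by_contra hnk
          exact hs4 (hanti (by omega : k + 1 ≤ n) hn2)
        exact A_mono this hn1
      rw [hC] at hs4
      exact hs4.1 k (by omega)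
    have hcount : (⋃ k, {X | D Y X C ∈ q k}).Countable :=
      Set.countable_iUnion fun k => (hbad k).countable
    have hne' : ∃ X, X ∉ ⋃ k, {X | D Y X C ∈ q k} := by
      by_contra hc
      push Not at hc
      have : (Set.univ : Set (Set ℕ)).Countable := hcount.mono fun X _ => hc X
      have h5 := mk_le_aleph0_iff.2 (Set.countable_univ_iff.1 this)
      rw [mk_set, mk_nat, two_power_aleph0] at h5
      exact absurd h5 (not_le.2 aleph0_lt_continuum)
    obtain ⟨X, hX⟩ := hne'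
    rw [Set.mem_iUnion, not_exists] at hX
    exact ⟨D Y X C, hYr X, fun k => hX k⟩

end KunenAux

open KunenAux in
/-- **Kunen**: there are weak P-points. -/
theorem exists_weakPPoint : ∃ r : Ultrafilter ℕ, WeakPPoint r := by
  obtain ⟨r, hr1, hr2⟩ := exists_wpp
  have : Infinite S := S_inf
  obtain ⟨e⟩ := nonempty_equiv_of_countable (α := S) (β := ℕ)
  refine ⟨r.map e, ?_, fun q hq => ?_⟩
  · rw [Ultrafilter.coe_map]
    exact (map_mono hr1).trans e.injective.tendsto_cofinite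
  · obtain ⟨A, hA, hA'⟩ := hr2 (fun k => (q k).map e.symm) (by
      intro k
      refine ⟨?_, fun h => (hq k).2 ?_⟩
      · rw [Ultrafilter.coe_map]
        exact (map_mono (hq k).1).trans e.symm.injective.tendsto_cofinite
      · rw [← h, Ultrafilter.map_map]
        simp)
    refine ⟨e '' A, ?_, fun k hk => hA' k ?_⟩
    · rw [Ultrafilter.mem_map, e.injective.preimage_image]; exact hA
    · rw [Ultrafilter.mem_map]
      have : (e.symm ⁻¹' A : Set ℕ) = e '' A := by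
        ext n; simp
      rw [this]; exact hk

end SelGamma
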