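import Mathlib

/-!
# The selection principles of MP_46bd4a_lc
-/

namespace SelGamma

variable (X : Type) [TopologicalSpace X]

/-- `O(X)`: the sequences of open subsets of `X` which cover `X`. -/
def OpenCovers : Set (ℕ → Set X) :=
  {U | (∀ k, IsOpen (U k)) ∧ ⋃ k, U k = Set.univ}

/-- `Fin-Λ(X)`: the sequences of open subsets of `X` such that every point of `X` lies in
infinitely many terms. -/
def LargeCovers : Set (ℕ → Set X) :=
  {U | (∀ k, IsOpen (U k)) ∧ ∀ x, {k | x ∈ U k}.Infinite}

/-- `Γ_g(X)`: the double sequences of open subsets of `X` such that for every `n` every point of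
`X` lies outside of at most `g n` of the sets `V n m`, `m ∈ ℕ`. -/
def GammaCovers (g : ℕ → ℕ) : Set (ℕ → ℕ → Set X) :=
  {V | (∀ n m, IsOpen (V n m)) ∧ ∀ x n, {m | x ∉ V n m}.encard ≤ g n}

variable {X}

/-- `S₁(𝒜, ℬ)`: from every double sequence in `𝒜` one can select one member of each row so that
the selected sequence is in `ℬ`. -/
def S1 (𝒜 : Set (ℕ → ℕ → Set X)) (ℬ : Set (ℕ → Set X)) : Prop :=
  ∀ V ∈ 𝒜, ∃ d : ℕ → ℕ, (fun n => V n (d n)) ∈ ℬ

end SelGamma
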