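import Pool.Agent.Lib.MP_46bd4a_lc.Defs

/-!
# A Hausdorff space of size continuum built from copies of a weak P-point
-/

open Cardinal Set Filter

namespace SelGamma

namespace SpaceAux

/-! ### The index set -/

/-- A well order of type continuum. -/
theorem exists_order : ∃ (X : Type) (_ : LinearOrder X), WellFoundedLT X ∧ #X = 𝔠 ∧
    (∀ b : X, #(Iio b) < 𝔠) ∧ (∀ b : X, #(Iic b) < 𝔠) := by
  refine ⟨(Cardinal.continuum.{0}).ord.ToType, inferInstance, inferInstance, by simp, ?_, ?_⟩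
  · intro b
    simpa using mk_Iio_lt b (by simp)
  · intro b
    simpa using mk_Iic_lt b (by simp) (by simp [aleph0_le_continuum])

variable {X : Type} [LinearOrder X]

theorem exists_bound (hX : #X = 𝔠) (hI : ∀ b : X, #(Iic b) < 𝔠) (S : Set X) (hS : S.Countable) :
    ∃ b, ∀ x ∈ S, x ≤ b := by
  by_contra hcon
  push Not at hcon
  have h1 : (univ : Set X) = ⋃ s : S, Iic (s : X) := by
    refine (eq_univ_of_forall fun b => ?_).symm
    obtain ⟨x, hx, hbx⟩ := hcon b
    exact mem_iUnion.2 ⟨⟨x, hx⟩, hbx.le⟩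
  have h2 : #X ≤ Cardinal.sum fun s : S => #(Iic (s : X)) := by
    rw [← mk_univ, h1]
    exact mk_iUnion_le_sum_mk
  have h3 := sum_lt_prod (fun s : S => #(Iic (s : X))) (fun _ : S => 𝔠) (fun s => hI s)
  rw [prod_const'] at h3
  have h4 : (𝔠 : Cardinal.{0}) ^ #S ≤ 𝔠 ^ ℵ₀ :=
    power_le_power_left (by simp [continuum_ne_zero]) (mk_le_aleph0_iff.2 hS)
  rw [continuum_power_aleph0] at h4
  exact absurd (h2.trans_lt h3) (not_lt.2 (h4.trans hX.ge))

/-- A surjection onto a set of size at most continuum, taking each value cofinally often. -/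
theorem exists_cofinal_map (hX : #X = 𝔠) (hI : ∀ b : X, #(Iic b) < 𝔠) (D : Type) [Nonempty D]
    (hD : #D ≤ 𝔠) : ∃ g : X → D, ∀ d b, ∃ x, b < x ∧ g x = d := by
  have hne : Nonempty X := by
    rw [← mk_ne_zero_iff, hX]
    exact continuum_ne_zero
  have h1 : #(D × X) ≤ #X := by
    rw [mk_prod, lift_id, lift_id, hX]
    calc #D * 𝔠 ≤ 𝔠 * 𝔠 := mul_le_mul_left hD 𝔠
      _ = 𝔠 := continuum_mul_self
  obtain ⟨e⟩ := h1
  let φ : X → D × X := Function.invFun e
  have hφ : Function.Surjective φ := Function.invFun_surjective e.injective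
  refine ⟨fun x => (φ x).1, fun d b => ?_⟩
  by_contra hcon
  push Not at hcon
  have h2 : ∀ y : X, ∃ x : Iic b, φ x = (d, y) := by
    intro y
    obtain ⟨x, hx⟩ := hφ (d, y)
    refine ⟨⟨x, ?_⟩, hx⟩
    by_contra hxb
    exact hcon x (not_le.1 hxb) (by rw [hx])
  choose u hu using h2
  have h3 : Function.Injective u := by
    intro y y' h
    have := hu y
    rw [h, hu y'] at this
    exact (Prod.mk.inj this).2.symm
  have := mk_le_of_injective h3
  rw [hX] at this
  exact absurd (hI b) (not_lt.2 this)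

/-- Injective choice. -/
theorem exists_injective_choice [WellFoundedLT X] (hX : #X = 𝔠) (hI : ∀ b : X, #(Iio b) < 𝔠)
    (I T : Type) (hI' : #I ≤ 𝔠) (Q : I → Set T) (hQ : ∀ i, 𝔠 ≤ #(Q i)) :
    ∃ p : I → T, Function.Injective p ∧ ∀ i, p i ∈ Q i := by
  rcases isEmpty_or_nonempty I with hemp | hne
  · exact ⟨fun i => (hemp.false i).elim, fun i => (hemp.false i).elim,
      fun i => (hemp.false i).elim⟩
  rw [← hX] at hI'
  obtain ⟨e⟩ := hI'
  let Q' : X → Set T := fun x => Q (Function.invFun e x)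
  have hstep : ∀ (x : X) (F : ∀ y, y < x → T), ∃ t, t ∈ Q' x ∧ ∀ y (h : y < x), F y h ≠ t := by
    intro x F
    by_contra hcon
    push Not at hcon
    have h1 : Q' x ⊆ range (fun y : Iio x => F y y.2) := by
      intro t ht
      obtain ⟨y, hy, hyt⟩ := hcon t ht
      exact ⟨⟨y, hy⟩, hyt⟩
    have h2 := (mk_le_mk_of_subset h1).trans mk_range_le
    exact absurd (hI x) (not_lt.2 ((hQ _).trans h2))
  choose c hc1 hc2 using hstep
  let p' : X → T := (wellFounded_lt (α := X)).fix c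
  have hp' : ∀ x, p' x = c x (fun y _ => p' y) := fun x => WellFounded.fix_eq _ _ x
  have hinj : ∀ x y, y < x → p' y ≠ p' x := by
    intro x y hyx
    have := hc2 x (fun y _ => p' y) y hyx
    rwa [← hp'] at this
  refine ⟨fun i => p' (e i), ?_, ?_⟩
  · intro i j hij
    rcases lt_trichotomy (e i) (e j) with h | h | h
    · exact absurd hij (hinj _ _ h)
    · exact e.injective h
    · exact absurd hij.symm (hinj _ _ h)
  · intro i
    have := hc1 (e i) (fun y _ => p' y)
    rw [← hp'] at this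
    simpa [Q', Function.leftInverse_invFun e.injective i] using this

/-! ### Ultrafilters -/

/-- The separation property of a (copy of a) weak P-point. -/
def WeakP {Y : Type} (P : Ultrafilter Y) : Prop :=
  ∀ (ι : Type) [Countable ι] (q : ι → Ultrafilter Y),
    (∀ k, (q k : Filter Y) ≤ cofinite ∧ q k ≠ P) → ∃ A ∈ P, ∀ k, A ∉ q k

theorem weakP_of_weakPPoint {r : Ultrafilter ℕ} (hr : WeakPPoint r) : WeakP r := by
  intro ι _ q hq
  rcases isEmpty_or_nonempty ι with hemp | hne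
  · exact ⟨univ, univ_mem, fun k => (hemp.false k).elim⟩
  · obtain ⟨f, hf⟩ := exists_surjective_nat ι
    obtain ⟨A, hA, hA'⟩ := hr.2 (fun n => q (f n)) (fun n => hq _)
    refine ⟨A, hA, fun k => ?_⟩
    obtain ⟨n, rfl⟩ := hf k
    exact hA' n

theorem map_le_cofinite {Y Z : Type} {P : Ultrafilter Y} (hP : (P : Filter Y) ≤ cofinite)
    {β : Y → Z} (hβ : Function.Injective β) : ((P.map β : Ultrafilter Z) : Filter Z) ≤ cofinite := by
  rw [Ultrafilter.coe_map]
  exact (map_mono hP).trans hβ.tendsto_cofinite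

theorem weakP_map {Y Z : Type} {P : Ultrafilter Y} (hP : WeakP P) {β : Y → Z}
    (hβ : Function.Injective β) : WeakP (P.map β) := by
  classical
  intro ι _ q hq
  let K : Set ι := {k | range β ∈ q k}
  have hK : ∀ k : K, range β ∈ q k := fun k => k.2
  let q' : K → Ultrafilter Y := fun k => (q k).comap hβ (hK k)
  have hmap : ∀ k : K, (q' k).map β = q k := by
    intro k
    apply Ultrafilter.coe_injective
    rw [Ultrafilter.coe_map, Ultrafilter.coe_comap]
    exact map_comap_of_mem (hK k)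
  have hq' : ∀ k : K, ((q' k : Ultrafilter Y) : Filter Y) ≤ cofinite ∧ q' k ≠ P := by
    intro k
    constructor
    · rw [Ultrafilter.coe_comap]
      intro s hs
      rw [mem_cofinite] at hs
      rw [mem_comap_iff hβ (hK k)]
      have h1 : (β '' sᶜ).Finite := hs.image β
      have h2 : (β '' sᶜ)ᶜ ∈ q k := (hq k).1 h1.compl_mem_cofinite
      filter_upwards [h2, hK k] with z hz1 hz2
      obtain ⟨y, rfl⟩ := hz2
      refine ⟨y, ?_, rfl⟩
      by_contra hy
      exact hz1 ⟨y, hy, rfl⟩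
    · intro h
      apply (hq k).2
      rw [← hmap k, h]
  obtain ⟨A, hA, hA'⟩ := hP K q' hq'
  refine ⟨β '' A, image_mem_map hA, fun k hk => ?_⟩
  have hk' : range β ∈ q k := mem_of_superset hk (image_subset_range _ _)
  apply hA' ⟨k, hk'⟩
  exact (Ultrafilter.mem_comap (q k) hβ hk').2 hk

/-- Countably many distinct copies of weak P-points have pairwise disjoint members. -/
theorem exists_disjoint {Y ι : Type} [Countable ι] (p : ι → Ultrafilter Y)
    (hinj : Function.Injective p) (hcof : ∀ i, (p i : Filter Y) ≤ cofinite)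
    (hw : ∀ i, WeakP (p i)) (R : ι → Set Y) (hR : ∀ i, R i ∈ p i) :
    ∃ B : ι → Set Y, (∀ i, B i ∈ p i) ∧ (∀ i, B i ⊆ R i) ∧
      ∀ i j, i ≠ j → Disjoint (B i) (B j) := by
  have h1 : ∀ i, ∃ A ∈ p i, ∀ j, j ≠ i → A ∉ p j := by
    intro i
    obtain ⟨A, hA, hA'⟩ := hw i {j // j ≠ i} (fun j => p j)
      (fun j => ⟨hcof _, fun h => j.2 (hinj h)⟩)
    exact ⟨A, hA, fun j hj => hA' ⟨j, hj⟩⟩
  choose A hA hA' using h1
  obtain ⟨e, he⟩ := exists_injective_nat ι
  refine ⟨fun i => (R i ∩ A i) \ ⋃ j ∈ {j | e j < e i}, A j, fun i => ?_, fun i => ?_, ?_⟩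
  · have hmem : (⋃ j ∈ {j | e j < e i}, A j)ᶜ ∈ p i := by
      rw [Ultrafilter.compl_mem_iff_notMem]
      have hfin : {j | e j < e i}.Finite := Finite.preimage he.injOn (finite_Iio (e i))
      rw [Ultrafilter.finite_biUnion_mem_iff hfin]
      rintro ⟨j, hj, hj'⟩
      refine hA' j i (fun hij => ?_) hj'
      have hj2 : e j < e i := hj
      rw [hij] at hj2
      exact lt_irrefl _ hj2
    exact inter_mem (inter_mem (hR i) (hA i)) hmem
  · exact sdiff_subset.trans inter_subset_left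
  · have key : ∀ i j, e i < e j → Disjoint ((R i ∩ A i) \ ⋃ k ∈ {k | e k < e i}, A k)
        ((R j ∩ A j) \ ⋃ k ∈ {k | e k < e j}, A k) := by
      intro i j hij
      rw [Set.disjoint_left]
      rintro y ⟨⟨_, hy⟩, _⟩ ⟨_, hy'⟩
      exact hy' (mem_iUnion₂.2 ⟨i, hij, hy⟩)
    intro i j hij
    rcases lt_trichotomy (e i) (e j) with h | h | h
    · exact key i j h
    · exact absurd (he h) hij
    · exact (key j i h).symm

/-- The code of an initial segment. -/
def code (c : ℕ → Bool) (n : ℕ) : ℕ := Encodable.encode ((List.range n).map c)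

theorem code_eq {c c' : ℕ → Bool} {n n' : ℕ} (h : code c n = code c' n') :
    n = n' ∧ ∀ m < n, c m = c' m := by
  have h1 := Encodable.encode_injective h
  have h2 : n = n' := by simpa using congrArg List.length h1
  subst h2
  refine ⟨rfl, fun m hm => ?_⟩
  have h3 := congrArg (fun l => l[m]?) h1
  simpa [List.getElem?_map, List.getElem?_range hm] using h3

theorem code_injective (c : ℕ → Bool) : Function.Injective (code c) :=
  fun _ _ h => (code_eq h).1

theorem code_inter_finite {c c' : ℕ → Bool} (h : c ≠ c') :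
    (range (code c) ∩ range (code c')).Finite := by
  obtain ⟨m, hm⟩ := Function.ne_iff.1 h
  refine ((finite_Iic m).image (code c)).subset ?_
  rintro _ ⟨⟨n, rfl⟩, ⟨n', hn'⟩⟩
  refine ⟨n, ?_, rfl⟩
  by_contra hnm
  exact hm ((code_eq hn'.symm).2 m (not_le.1 hnm))

theorem map_code_injective {Y : Type} {r : Ultrafilter ℕ} (hr : (r : Filter ℕ) ≤ cofinite)
    {α : ℕ → Y} (hα : Function.Injective α) :
    Function.Injective (fun c : ℕ → Bool => r.map (α ∘ code c)) := by
  intro c c' h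
  by_contra hne
  simp only at h
  have hfin : (range (α ∘ code c) ∩ range (α ∘ code c')).Finite := by
    refine ((code_inter_finite hne).image α).subset ?_
    rintro _ ⟨⟨n, rfl⟩, ⟨n', hn'⟩⟩
    exact ⟨code c n, ⟨⟨n, rfl⟩, ⟨n', hα hn'⟩⟩, rfl⟩
  have h1 : range (α ∘ code c) ∈ r.map (α ∘ code c) := by
    rw [Ultrafilter.mem_map]
    exact mem_of_superset univ_mem fun n _ => mem_range_self n
  have h2 : range (α ∘ code c') ∈ r.map (α ∘ code c) := by
    rw [h, Ultrafilter.mem_map]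
    exact mem_of_superset univ_mem fun n _ => mem_range_self n
  have h3 : (range (α ∘ code c) ∩ range (α ∘ code c'))ᶜ ∈ r.map (α ∘ code c) :=
    map_le_cofinite hr (hα.comp (code_injective c)) hfin.compl_mem_cofinite
  have h4 := inter_mem (inter_mem h1 h2) h3
  rw [inter_compl_self] at h4
  exact Ultrafilter.empty_notMem h4

theorem continuum_le_copies {Y : Type} {r : Ultrafilter ℕ} (hr : (r : Filter ℕ) ≤ cofinite)
    {α : ℕ → Y} (hα : Function.Injective α) :
    𝔠 ≤ #(range (fun c : ℕ → Bool => r.map (α ∘ code c))) := by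
  rw [mk_range_eq _ (map_code_injective hr hα)]
  simp

/-! ### Countable closure -/

theorem exists_countable_closed {Y : Type} (F : Y → Set Y) (hF : ∀ x, (F x).Countable)
    (S : Set Y) (hS : S.Countable) : ∃ D : Set Y, D.Countable ∧ S ⊆ D ∧ ∀ x ∈ D, F x ⊆ D := by
  let E : ℕ → Set Y := fun n => Nat.rec S (fun _ T => T ∪ ⋃ x ∈ T, F x) n
  have hE : ∀ n, E (n + 1) = E n ∪ ⋃ x ∈ E n, F x := fun n => rfl
  have hc : ∀ n, (E n).Countable := by
    intro n
    induction n with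
    | zero => exact hS
    | succ n ih =>
      rw [hE]
      exact ih.union (ih.biUnion fun x _ => hF x)
  refine ⟨⋃ n, E n, countable_iUnion hc, subset_iUnion E 0, ?_⟩
  intro x hx y hy
  obtain ⟨n, hn⟩ := mem_iUnion.1 hx
  refine mem_iUnion.2 ⟨n + 1, ?_⟩
  rw [hE]
  exact Or.inr (mem_iUnion₂.2 ⟨x, hn, hy⟩)

/-! ### The topology -/

section Topology

/-- The topology of convergence of the given ultrafilters. -/
@[reducible] def tau {X : Type} (K : X → ℕ) (p : (Σ x : X, Fin (K x)) → Ultrafilter X) : TopologicalSpace X where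
  IsOpen U := ∀ x ∈ U, ∀ i : Fin (K x), U ∈ p ⟨x, i⟩
  isOpen_univ _ _ _ := univ_mem
  isOpen_inter U V hU hV x hx i := inter_mem (hU x hx.1 i) (hV x hx.2 i)
  isOpen_sUnion 𝒰 h𝒰 x hx i := by
    obtain ⟨U, hU, hxU⟩ := hx
    exact mem_of_superset (h𝒰 U hU x hxU i) (subset_sUnion_of_mem hU)

theorem le_nhds_tau {X : Type} {K : X → ℕ} (p : (Σ x : X, Fin (K x)) → Ultrafilter X) (x : X)
    (i : Fin (K x)) : (p ⟨x, i⟩ : Filter X) ≤ @nhds X (tau K p) x := by
  intro S hS
  obtain ⟨U, hUS, hU, hxU⟩ := (@mem_nhds_iff X (tau K p) x S).1 hS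
  exact mem_of_superset (hU x hxU i) hUS

/-- Two points can be separated by open sets. -/
theorem separate_of_lt {X : Type} [LinearOrder X] {K : X → ℕ} {a : ∀ x : X, Fin (K x) → ℕ → X}
    (ha : ∀ x i n, a x i n < x) {p : (Σ x : X, Fin (K x)) → Ultrafilter X}
    (hinj : Function.Injective p) (hcof : ∀ i, (p i : Filter X) ≤ cofinite)
    (hw : ∀ i, WeakP (p i)) (hrange : ∀ x i, range (a x i) ∈ p ⟨x, i⟩)
    {z' z : X} (hz : z' < z) :
    ∃ U V : Set X, @IsOpen X (tau K p) U ∧ @IsOpen X (tau K p) V ∧ z' ∈ U ∧ z ∈ V ∧ Disjoint U V := by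
  obtain ⟨D, hD, hzD, hDcl⟩ := exists_countable_closed (fun x => ⋃ i, range (a x i))
    (fun x => countable_iUnion fun i => countable_range _) {z', z} (by simp)
  have : Countable D := hD.to_subtype
  let ι := Σ x : D, Fin (K x)
  let q : ι → Ultrafilter X := fun j => p ⟨j.1, j.2⟩
  have hq : Function.Injective q := by
    rintro ⟨x, i⟩ ⟨y, j⟩ h
    have h' := hinj h
    simp only [Sigma.mk.injEq] at h'
    obtain ⟨h1, h2⟩ := h'
    have h3 : x = y := Subtype.ext h1
    subst h3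
    simp only [heq_eq_eq] at h2
    rw [h2]
  obtain ⟨B, hB, hBR, hBd⟩ := exists_disjoint q hq (fun _ => hcof _) (fun _ => hw _)
    (fun j => range (a j.1 j.2)) (fun j => hrange _ _)
  let child : X → X → Prop := fun x y => ∃ (hx : x ∈ D) (i : Fin (K x)), y ∈ B ⟨⟨x, hx⟩, i⟩
  have hc1 : ∀ x y, child x y → y < x := by
    rintro x y ⟨hx, i, hy⟩
    obtain ⟨n, rfl⟩ := hBR _ hy
    exact ha _ _ _
  have hc2 : ∀ x y, child x y → y ∈ D := by
    rintro x y ⟨hx, i, hy⟩
    exact hDcl x hx (mem_iUnion.2 ⟨i, hBR _ hy⟩)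
  have hc3 : ∀ x x' y, child x y → child x' y → x = x' := by
    rintro x x' y ⟨hx, i, hy⟩ ⟨hx', i', hy'⟩
    by_contra hne
    have := hBd ⟨⟨x, hx⟩, i⟩ ⟨⟨x', hx'⟩, i'⟩ (by
      intro h
      apply hne
      exact congrArg (fun j : ι => (j.1 : X)) h)
    exact Set.disjoint_left.1 this hy hy'
  have hc4 : ∀ x ∈ D, ∀ i : Fin (K x), {y | child x y} ∈ p ⟨x, i⟩ := by
    intro x hx i
    exact mem_of_superset (hB ⟨⟨x, hx⟩, i⟩) fun y hy => ⟨hx, i, hy⟩
  have hU1 : ∀ w, w ∈ D → ∀ y, Relation.ReflTransGen child w y → y ≤ w ∧ y ∈ D := by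
    intro w hw y hy
    induction hy with
    | refl => exact ⟨le_rfl, hw⟩
    | tail _ h2 ih => exact ⟨(hc1 _ _ h2).le.trans ih.1, hc2 _ _ h2⟩
  have hz'D : z' ∈ D := hzD (by simp)
  have hzD' : z ∈ D := hzD (by simp)
  refine ⟨{y | Relation.ReflTransGen child z' y},
    {y | Relation.ReflTransGen child z y} \ {y | Relation.ReflTransGen child z' y},
    ?_, ?_, Relation.ReflTransGen.refl, ⟨Relation.ReflTransGen.refl, ?_⟩, ?_⟩
  · intro w hw i
    refine mem_of_superset (hc4 w (hU1 z' hz'D w hw).2 i) fun y hy => ?_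
    exact Relation.ReflTransGen.tail hw hy
  · rintro w ⟨hw, hw'⟩ i
    have h1 : ({z'} : Set X)ᶜ ∈ p ⟨w, i⟩ := hcof _ (finite_singleton z').compl_mem_cofinite
    filter_upwards [hc4 w (hU1 z hzD' w hw).2 i, h1] with y hy hy'
    refine ⟨Relation.ReflTransGen.tail hw hy, fun hcon => ?_⟩
    rcases Relation.ReflTransGen.cases_tail hcon with h | ⟨w', h2, h3⟩
    · exact hy' h
    · rw [hc3 _ _ _ h3 hy] at h2
      exact hw' h2
  · intro hcon
    exact absurd (hU1 z' hz'D z hcon).1 (not_le.2 hz)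
  · exact disjoint_sdiff_right

end Topology

/-! ### The data -/

theorem mk_data_le {X : Type} (hX : #X = 𝔠) (W : Set (ℕ → Set ℕ)) :
    #((Σ k : ℕ, (Fin k → ℕ → X)) × W) ≤ 𝔠 := by
  have h0 : #(ℕ → X) = 𝔠 := by
    rw [← power_def, hX, mk_nat, continuum_power_aleph0]
  have : Infinite (ℕ → X) := by
    rw [infinite_iff, h0]
    exact aleph0_le_continuum
  have h1 : #(Σ k : ℕ, (Fin k → ℕ → X)) = 𝔠 := by
    rw [← mk_congr (List.equivSigmaTuple (α := ℕ → X)), mk_list_eq_mk, h0]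
  have h2 : #W ≤ 𝔠 := by
    refine (mk_set_le W).trans ?_
    rw [← power_def, mk_nat]
    have : #(Set ℕ) = 𝔠 := by simp
    rw [this, continuum_power_aleph0]
  rw [mk_prod, lift_id, lift_id, h1]
  calc 𝔠 * #W ≤ 𝔠 * 𝔠 := mul_le_mul_right h2 𝔠
    _ = 𝔠 := continuum_mul_self

theorem exists_data (W : Set (ℕ → Set ℕ)) (hW : W.Nonempty) :
    ∃ (X : Type) (_ : LinearOrder X) (K : X → ℕ) (a : ∀ x, Fin (K x) → ℕ → X)
      (π : X → ℕ → Set ℕ), WellFoundedLT X ∧ #X = 𝔠 ∧ (∀ b : X, #(Iio b) < 𝔠) ∧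
      (∀ x i, Function.Injective (a x i)) ∧ (∀ x i n, a x i n < x) ∧ (∀ x, π x ∈ W) ∧
      ∀ (k : ℕ) (α : Fin k → ℕ → X), (∀ i, Function.Injective (α i)) → ∀ w ∈ W,
        ∃ x, π x = w ∧ ∀ i : Fin k, ∃ i' : Fin (K x), a x i' = α i := by
  classical
  obtain ⟨X, oX, hwf, hX, hI, hI'⟩ := exists_order
  obtain ⟨w₀, hw₀⟩ := hW
  have hne : Nonempty ((Σ k : ℕ, (Fin k → ℕ → X)) × W) := ⟨⟨⟨0, Fin.elim0⟩, ⟨w₀, hw₀⟩⟩⟩
  obtain ⟨g, hg⟩ := exists_cofinal_map hX hI' ((Σ k : ℕ, (Fin k → ℕ → X)) × W)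
    (mk_data_le hX W)
  let Good : X → Prop := fun x =>
    ∀ i, Function.Injective ((g x).1.2 i) ∧ ∀ n, (g x).1.2 i n < x
  let L : X → Σ k : ℕ, (Fin k → ℕ → X) := fun x => if Good x then (g x).1 else ⟨0, Fin.elim0⟩
  have hL : ∀ x, ∀ i, Function.Injective ((L x).2 i) ∧ ∀ n, (L x).2 i n < x := by
    intro x
    by_cases hx : Good x
    · have : L x = (g x).1 := if_pos hx
      rw [this]
      exact hx
    · have : L x = ⟨0, Fin.elim0⟩ := if_neg hx
      rw [this]
      exact fun i => i.elim0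
  refine ⟨X, oX, fun x => (L x).1, fun x => (L x).2, fun x => ((g x).2 : ℕ → Set ℕ), hwf, hX,
    hI, fun x i => (hL x i).1, fun x i => (hL x i).2, fun x => (g x).2.2, ?_⟩
  intro k α hα w hw
  obtain ⟨b, hb⟩ := exists_bound hX hI' (⋃ i, range (α i))
    (countable_iUnion fun i => countable_range _)
  obtain ⟨x, hbx, hgx⟩ := hg (⟨k, α⟩, ⟨w, hw⟩) b
  have hgood : Good x := by
    intro i
    have key : ∀ d : (Σ k : ℕ, (Fin k → ℕ → X)) × W, d = (⟨k, α⟩, ⟨w, hw⟩) → ∀ i : Fin d.1.1,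
        Function.Injective (d.1.2 i) ∧ ∀ n, d.1.2 i n < x := by
      rintro _ rfl i
      exact ⟨hα i, fun n => (hb _ (mem_iUnion.2 ⟨i, mem_range_self n⟩)).trans_lt hbx⟩
    exact key _ hgx i
  have hLx : L x = ⟨k, α⟩ := by
    have : L x = (g x).1 := if_pos hgood
    rw [this, hgx]
  refine ⟨x, by simp only [hgx], ?_⟩
  have key : ∀ d : (Σ k : ℕ, (Fin k → ℕ → X)), d = ⟨k, α⟩ → ∀ i : Fin k,
      ∃ i' : Fin d.1, d.2 i' = α i := by
    rintro _ rfl i
    exact ⟨i, rfl⟩
  exact key _ hLx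

end SpaceAux

open SpaceAux in
/-- A Hausdorff space built from copies of a weak P-point. -/
theorem exists_space (r : Ultrafilter ℕ) (hr : WeakPPoint r) (W : Set (ℕ → Set ℕ))
    (hW : W.Nonempty) :
    ∃ (X : Type) (_ : TopologicalSpace X) (π : X → ℕ → Set ℕ), T2Space X ∧
      (∀ x, π x ∈ W) ∧ (∀ w ∈ W, ∃ x, π x = w) ∧ (∀ n m, IsClosed {x | m ∈ π x n}) ∧
      ∀ (k : ℕ) (α : Fin k → ℕ → X) (s : Fin k → ℕ → Set ℕ),
        (∀ i, Function.Injective (α i)) →
        (∀ i n m, ∀ᶠ j in Filter.atTop, (m ∈ π (α i j) n ↔ m ∈ s i n)) →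
        (fun n => ⋃ i, s i n) ∈ W → ∃ x, ∀ i, x ∈ closure (Set.range (α i)) := by
  obtain ⟨X, oX, K, a, π, hwf, hX, hI, hainj, halt, hπW, hdata⟩ := exists_data W hW
  have hwr : WeakP r := weakP_of_weakPPoint hr
  have hrc := hr.1
  -- the ultrafilters
  have hIdx : #(Σ x : X, Fin (K x)) ≤ 𝔠 := by
    have h1 : #(Σ x : X, Fin (K x)) ≤ #(X × ℕ) := by
      refine mk_le_of_injective (f := fun j : (Σ x : X, Fin (K x)) => (j.1, (j.2 : ℕ))) ?_
      rintro ⟨x, i⟩ ⟨y, j⟩ h
      simp only [Prod.mk.injEq] at h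
      obtain ⟨h1, h2⟩ := h
      subst h1
      rw [Fin.ext h2]
    refine h1.trans ?_
    rw [mk_prod, lift_id, lift_id, hX, mk_nat, continuum_mul_aleph0]
  obtain ⟨p, hpinj, hp⟩ := exists_injective_choice hX hI (Σ x : X, Fin (K x)) (Ultrafilter X)
    hIdx (fun j => range (fun c : ℕ → Bool => r.map (a j.1 j.2 ∘ code c)))
    (fun j => continuum_le_copies hrc (hainj _ _))
  have hpcof : ∀ j, (p j : Filter X) ≤ cofinite := by
    intro j
    obtain ⟨c, hc⟩ := hp j
    rw [← hc]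
    exact map_le_cofinite hrc ((hainj _ _).comp (code_injective c))
  have hpw : ∀ j, WeakP (p j) := by
    intro j
    obtain ⟨c, hc⟩ := hp j
    rw [← hc]
    exact weakP_map hwr ((hainj _ _).comp (code_injective c))
  have hprange : ∀ x i, range (a x i) ∈ p ⟨x, i⟩ := by
    intro x i
    obtain ⟨c, hc⟩ := hp ⟨x, i⟩
    rw [← hc, Ultrafilter.mem_map]
    exact mem_of_superset univ_mem fun n _ => mem_range_self _
  -- the topology
  let G : Set (Set X) := {V | ∃ n m, V = {x | m ∉ π x n}}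
  let T : TopologicalSpace X := tau K p ⊓ TopologicalSpace.generateFrom G
  have hT : ∀ U, @IsOpen X (tau K p) U → @IsOpen X T U := by
    intro U hU
    exact (inf_le_left : T ≤ tau K p) U hU
  refine ⟨X, T, π, ?_, hπW, ?_, ?_, ?_⟩
  · refine @T2Space.mk X T fun x y hxy => ?_
    rcases lt_or_gt_of_ne hxy with h | h
    · obtain ⟨U, V, hU, hV, hx, hy, hUV⟩ :=
        separate_of_lt halt hpinj hpcof hpw hprange h
      exact ⟨U, V, hT U hU, hT V hV, hx, hy, hUV⟩
    · obtain ⟨U, V, hU, hV, hy, hx, hUV⟩ :=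
        separate_of_lt halt hpinj hpcof hpw hprange h
      exact ⟨V, U, hT V hV, hT U hU, hx, hy, hUV.symm⟩
  · intro w hw
    obtain ⟨x, hx, _⟩ := hdata 0 Fin.elim0 (fun i => i.elim0) w hw
    exact ⟨x, hx⟩
  · intro n m
    refine @IsClosed.mk X T _ ?_
    have h1 : @IsOpen X (TopologicalSpace.generateFrom G) {x | m ∉ π x n} :=
      TopologicalSpace.isOpen_generateFrom_of_mem ⟨n, m, rfl⟩
    exact (inf_le_right : T ≤ TopologicalSpace.generateFrom G) _ h1
  · intro k α s hα hs hw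
    obtain ⟨x, hx, hxi⟩ := hdata k α hα _ hw
    refine ⟨x, fun i => ?_⟩
    obtain ⟨i', hi'⟩ := hxi i
    rw [mem_closure_iff_ultrafilter]
    refine ⟨p ⟨x, i'⟩, by rw [← hi']; exact hprange x i', ?_⟩
    have hnh : @nhds X T x = @nhds X (tau K p) x ⊓
        @nhds X (TopologicalSpace.generateFrom G) x :=
      @nhds_inf X (tau K p) (TopologicalSpace.generateFrom G) x
    rw [hnh]
    refine le_inf (le_nhds_tau p x i') ?_
    rw [TopologicalSpace.nhds_generateFrom]
    refine le_iInf₂ ?_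
    rintro V ⟨hxV, n, m, rfl⟩
    rw [le_principal_iff]
    have hm : m ∉ s i n := by
      intro hm
      apply hxV
      rw [hx]
      exact mem_iUnion.2 ⟨i, hm⟩
    have hev := hs i n m
    have hfin : {j | m ∈ π (α i j) n}.Finite := by
      rw [eventually_atTop] at hev
      obtain ⟨N, hN⟩ := hev
      refine (finite_lt_nat N).subset fun j hj => ?_
      by_contra hjN
      exact hm ((hN j (not_lt.1 hjN)).1 hj)
    have hfin2 : (α i '' {j | m ∈ π (α i j) n})ᶜ ∈ p ⟨x, i'⟩ :=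
      hpcof _ (hfin.image _).compl_mem_cofinite
    have hr2 := hprange x i'
    rw [hi'] at hr2
    filter_upwards [hfin2, hr2] with y hy1 hy2
    obtain ⟨j, rfl⟩ := hy2
    intro hcon
    exact hy1 ⟨j, hcon, rfl⟩

end SelGamma
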