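import Pool.Agent.Lib.MP_46bd4a_lc.Comb
import Pool.Agent.Lib.MP_46bd4a_lc.Kunen
import Pool.Agent.Lib.MP_46bd4a_lc.Space
import Pool.Agent.Lib.MP_46bd4a_lc.Principles

/-!
# The counterexample
-/

open Filter

namespace SelGamma

/-- a slalom as a subset of the plane -/
def toSet (w : ℕ → Set ℕ) : Set (ℕ × ℕ) := {p | p.2 ∈ w p.1}

/-- the slaloms of the construction as sequences of sets -/
def WW : Set (ℕ → Set ℕ) := {w | Slm (toSet w)}

lemma encard_col (w : ℕ → Set ℕ) (n : ℕ) : (toSet w ∩ col n).encard = (w n).encard := by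
  have h : toSet w ∩ col n = (fun m => (n, m)) '' w n := by
    ext ⟨a, b⟩
    constructor
    · rintro ⟨h1, h2⟩
      have h2' : a = n := h2
      subst h2'
      exact ⟨b, h1, rfl⟩
    · rintro ⟨m, hm, h⟩
      obtain ⟨rfl, rfl⟩ := Prod.mk.inj h
      exact ⟨hm, rfl⟩
  rw [h]
  exact Function.Injective.encard_image (f := fun m => (n, m))
    (fun a b h => (Prod.mk.inj h).2) _

lemma WW_le {w : ℕ → Set ℕ} (hw : w ∈ WW) (n : ℕ) : (w n).encard ≤ gg n := by
  obtain ⟨ζ, -, -, h⟩ := hw
  rw [← encard_col]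
  exact h.col_le n

/-- functions are slaloms -/
lemma exists_WW (d : ℕ → ℕ) : ∃ w ∈ WW, ∀ n, rho 1 ≤ n → d n ∈ w n := by
  let w : ℕ → Set ℕ := fun n => {m | rho 1 ≤ n ∧ m = d n}
  refine ⟨w, ⟨fun _ => 1, fun _ => le_rfl, ?_, ?_, fun l => ?_, fun l n h1 h2 => ?_⟩,
    fun n hn => ⟨hn, rfl⟩⟩
  · have : {l : ℕ | (1 : ℕ) = 0} = ∅ := by ext; simp
    rw [this]
    exact Set.finite_empty
  · ext p
    constructor
    · rintro ⟨⟨h1, -⟩, -, h3⟩
      exact absurd h3 (not_lt.2 h1)
    · exact fun h => absurd h (Set.notMem_empty p)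
  · have h1 : toSet w ∩ Rg (l + 1) ⊆
        (fun n => (n, d n)) '' (Finset.Ico (rho (l + 1)) (rho (l + 2)) : Set ℕ) := by
      rintro ⟨a, b⟩ ⟨⟨-, h2⟩, h3, h4⟩
      exact ⟨a, by simpa using ⟨h3, h4⟩, Prod.ext rfl (show b = d a from h2).symm⟩
    have h2 : (toSet w ∩ Rg (l + 1)).encard ≤ (B (l + 1) : ℕ) := by
      refine (Set.encard_le_encard h1).trans ((Set.encard_image_le _ _).trans ?_)
      rw [Set.encard_coe_eq_coe_finsetCard, Nat.card_Ico, rho_succ (l + 1)]
      simp
    refine h2.trans ?_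
    exact_mod_cast Nat.le_mul_of_pos_left _ (Nat.pow_pos (Nat.succ_pos _))
  · rw [encard_col]
    have h3 : w n ⊆ {d n} := fun m hm => hm.2
    refine (Set.encard_le_encard h3).trans ?_
    rw [Set.encard_singleton]
    exact_mod_cast Nat.one_le_pow _ _ (Nat.succ_pos _)

/-- injective choice from a sequence of infinite sets -/
lemma exists_injective_seq {X : Type} (Y : ℕ → Set X) (hY : ∀ j, (Y j).Infinite) :
    ∃ α : ℕ → X, Function.Injective α ∧ ∀ j, ∃ k, j ≤ k ∧ α j ∈ Y k := by
  classical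
  obtain ⟨f, hf1, hf2⟩ := exists_seq_of_forall_finset_exists (fun p : ℕ × X => p.2 ∈ Y p.1)
    (fun p p' => p.1 < p'.1 ∧ p.2 ≠ p'.2) (by
      intro s _
      obtain ⟨y, hy, hy'⟩ := (hY (s.sup Prod.fst + 1)).exists_notMem_finset (s.image Prod.snd)
      refine ⟨(s.sup Prod.fst + 1, y), hy, fun p hp => ⟨?_, fun h => ?_⟩⟩
      · exact Nat.lt_succ_of_le (Finset.le_sup (f := Prod.fst) hp)
      · exact hy' (Finset.mem_image.2 ⟨p, hp, h⟩))
  have hmono : StrictMono fun j => (f j).1 := fun i j hij => (hf2 i j hij).1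
  refine ⟨fun j => (f j).2, fun i j hij => ?_, fun j => ⟨(f j).1, hmono.le_apply, hf1 j⟩⟩
  rcases lt_trichotomy i j with h | h | h
  · exact absurd hij (hf2 i j h).2
  · exact h
  · exact absurd hij.symm (hf2 j i h).2

theorem main : ∃ g : ℕ → ℕ, (∀ n, 1 ≤ g n) ∧ Tendsto g atTop atTop ∧
    ∃ (X : Type) (_ : TopologicalSpace X), T2Space X ∧
      S1 (GammaCovers X g) (OpenCovers X) ∧ ¬ S1 (GammaCovers X g) (LargeCovers X) := by
  classical
  refine ⟨gg, gg_pos, gg_tendsto, ?_⟩
  obtain ⟨r, hr⟩ := exists_weakPPoint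
  obtain ⟨w₀, hw₀, -⟩ := exists_WW fun _ => 0
  obtain ⟨X, tX, π, hT2, hπ, hsurj, hcl, hlim⟩ := exists_space r hr WW ⟨w₀, hw₀⟩
  refine ⟨X, tX, hT2, ?_, ?_⟩
  · intro V hV
    by_contra hcon
    -- every branch has a label
    have hlab : ∀ e : ℕ → ℕ, ∃ x, ∀ n, x ∉ V n (e n) := by
      intro e
      by_contra he
      push Not at he
      refine hcon ⟨e, fun n => hV.1 _ _, Set.eq_univ_of_forall fun x => ?_⟩
      obtain ⟨n, hn⟩ := he x
      exact Set.mem_iUnion.2 ⟨n, hn⟩
    choose x hx using hlab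
    obtain ⟨q, σ, hq1, hq2, m, s, Q, hm, hs, hU⟩ := combK (fun e => toSet (π (x e)))
      fun e => hπ (x e)
    -- the sequences
    have hseq : ∀ i, ∃ α : ℕ → X, Function.Injective α ∧
        (∀ j, ∃ e : ℕ → ℕ, e σ.length = m i ∧ x e = α j) ∧
        ∀ n' m', ∀ᶠ j in atTop, (m' ∈ π (α j) n' ↔ (n', m') ∈ s i) := by
      intro i
      obtain ⟨α, hα, hα'⟩ := exists_injective_seq
        (fun j => {y | ∃ e : ℕ → ℕ, e σ.length = m i ∧ x e = y ∧
          ∀ p ∈ (Finset.range j ×ˢ Finset.range j : Finset (ℕ × ℕ)),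
            (p ∈ toSet (π y) ↔ p ∈ s i)}) (by
        intro j hfin
        have h1 : ∃ᶠ e in brFilter (σ ++ [m i]),
            ∃ y ∈ hfin.toFinset, x e = y := by
          have h2 := (hs i (Finset.range j ×ˢ Finset.range j)).and_eventually
            (brFilter_pre (σ ++ [m i]))
          refine h2.mono fun e he => ⟨x e, ?_, rfl⟩
          rw [Set.Finite.mem_toFinset]
          exact ⟨e, (pre_append_iff.1 he.2).2, rfl, he.1.2⟩
        obtain ⟨y, hy⟩ : ∃ y, ∃ᶠ e in brFilter (σ ++ [m i]), x e = y := by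
          by_contra hno
          have h3 : ∀ y ∈ hfin.toFinset, ∀ᶠ e in brFilter (σ ++ [m i]), ¬ x e = y :=
            fun y _ => Filter.not_frequently.1 (not_exists.1 hno y)
          obtain ⟨e, ⟨y, hy, hy'⟩, h4⟩ :=
            (h1.and_eventually ((Filter.eventually_all_finset _).2 h3)).exists
          exact h4 y hy hy'
        rw [frequently_brFilter_iff] at hy
        have h5 : {k | y ∉ V (σ ++ [m i]).length k} ∈ hyperfilter ℕ := by
          filter_upwards [hy] with k hk
          obtain ⟨e, he, he'⟩ := (hk.and_eventually (brFilter_pre _)).exists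
          have h6 := (pre_append_iff.1 he').2
          have h7 := hx e (σ ++ [m i]).length
          rw [he, h6] at h7
          exact h7
        have h8 : {k | y ∉ V (σ ++ [m i]).length k}.Finite :=
          Set.finite_of_encard_le_coe (hV.2 y _)
        exact notMem_hyperfilter_of_finite h8 h5)
      refine ⟨α, hα, fun j => ?_, fun n' m' => ?_⟩
      · obtain ⟨k, -, e, h1, h2, -⟩ := hα' j
        exact ⟨e, h1, h2⟩
      · filter_upwards [eventually_gt_atTop (max n' m')] with j hj
        obtain ⟨k, hk, e, -, -, h3⟩ := hα' j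
        have h4 := h3 (n', m') (Finset.mem_product.2 ⟨Finset.mem_range.2 (by
          have := le_max_left n' m'
          change n' < k
          omega), Finset.mem_range.2 (by
          have := le_max_right n' m'
          change m' < k
          omega)⟩)
        exact h4
    choose α hα1 hα2 hα3 using hseq
    obtain ⟨z, hz⟩ := hlim (H q + 1) α (fun i n => {m' | (n, m') ∈ s i}) hα1
      (fun i n m' => hα3 i n m') (by
        change Slm (toSet (fun n => ⋃ i, {m' | (n, m') ∈ s i}))
        have h1 : toSet (fun n => ⋃ i, {m' | (n, m') ∈ s i}) = ⋃ i, s i := by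
          ext p
          simp [toSet]
        rw [h1]
        exact hU)
    -- `z` lies outside of too many sets
    have h1 : ∀ i, z ∉ V σ.length (m i) := by
      intro i hzi
      obtain ⟨y, hy1, j, hj⟩ := mem_closure_iff.1 (hz i) _ (hV.1 σ.length (m i)) hzi
      obtain ⟨e, he1, he2⟩ := hα2 i j
      have h2 := hx e σ.length
      rw [he1, he2, hj] at h2
      exact h2 hy1
    have h2 : (Set.range m).encard ≤ gg σ.length :=
      (Set.encard_le_encard (by rintro _ ⟨i, rfl⟩; exact h1 i)).trans (hV.2 z σ.length)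
    have h3 : (Set.range m).encard = (H q + 1 : ℕ) := by
      rw [← Set.image_univ, hm.encard_image, Set.encard_univ]
      simp
    rw [h3, gg, blk_eq hq1 hq2] at h2
    have h4 : H q + 1 ≤ H q := by exact_mod_cast h2
    omega
  · intro hS
    obtain ⟨d, hd⟩ := hS (fun n m => {x | m ∈ π x n}ᶜ) ⟨fun n m => (hcl n m).isOpen_compl,
      fun x n => by
        have h1 : {m | x ∉ {x | m ∈ π x n}ᶜ} = π x n := by
          ext m
          simp
        rw [h1]
        exact WW_le (hπ x) n⟩
    obtain ⟨w, hw, hdw⟩ := exists_WW d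
    obtain ⟨x, rfl⟩ := hsurj w hw
    refine hd.2 x ((Set.finite_Iio (rho 1)).subset fun n hn => ?_)
    by_contra hcon
    exact hn (hdw n (not_lt.1 hcon))

end SelGamma
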