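import Pool.Agent.Lib.MP_46bd4a_lc.Params

/-!
# Unions of limits of slaloms are slaloms
-/

open Filter

namespace SelGamma

lemma encard_iUnion_inter_le {n : ℕ} (s : Fin n → Set (ℕ × ℕ)) (R : Set (ℕ × ℕ)) {b : ℕ}
    (h : ∀ i, (s i ∩ R).encard ≤ b) : ((⋃ i, s i) ∩ R).encard ≤ (n * b : ℕ) := by
  rw [Set.iUnion_inter]
  refine (Set.encard_iUnion_le_of_fintype _).trans ?_
  calc ∑ i, (s i ∩ R).encard ≤ ∑ _i : Fin n, (b : ℕ∞) := Finset.sum_le_sum fun i _ => h i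
    _ = (n * b : ℕ) := by simp

/-- The common hypotheses: `s i` are limits of values `S e` with `Q e`. -/
structure Ctx (S : (ℕ → ℕ) → Set (ℕ × ℕ)) (Z : (ℕ → ℕ) → ℕ → ℕ) (Q : (ℕ → ℕ) → Prop) (q : ℕ)
    (s : Fin (H q + 1) → Set (ℕ × ℕ)) (ζ' : ℕ → ℕ) : Prop where
  hZ : ∀ e l, Z e l ≤ 1
  hW : ∀ e, InW (Z e) (S e)
  hs : ∀ i, ∃ σ, InLim S σ Q (s i)
  hζ : ∀ l, ζ' l ≤ 1

variable {S : (ℕ → ℕ) → Set (ℕ × ℕ)} {Z : (ℕ → ℕ) → ℕ → ℕ} {Q : (ℕ → ℕ) → Prop} {q : ℕ}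
  {s : Fin (H q + 1) → Set (ℕ × ℕ)} {ζ' : ℕ → ℕ}

namespace Ctx

lemma exists_Q (h : Ctx S Z Q q s ζ') : ∃ e, Q e := by
  obtain ⟨σ, hσ⟩ := h.hs 0
  exact hσ.frequently.exists

lemma union_le (h : Ctx S Z Q q s ζ') (R : Set (ℕ × ℕ)) {b : ℕ}
    (hb : ∀ e, Q e → (S e ∩ R).encard ≤ b) :
    ((⋃ i, s i) ∩ R).encard ≤ ((H q + 1) * b : ℕ) := by
  apply encard_iUnion_inter_le
  intro i
  obtain ⟨σ, hσ⟩ := h.hs i
  exact hσ.bound hb

lemma pt_step (h : Ctx S Z Q q s ζ') {l : ℕ} (hl : q ≤ l)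
    (hc : ∀ e, Q e → code (X (⋃ i, s i)) ζ' (l + 1) < code (X (S e)) (Z e) (l + 1))
    (n : ℕ) (h1 : rho (l + 1) ≤ n) (h2 : n < rho (l + 2)) :
    ((⋃ i, s i) ∩ col n).encard ≤
      ((H l + 1) ^ (P (l + 1) - 1 - code (X (⋃ i, s i)) ζ' (l + 1)) : ℕ) := by
  have h3 := h.union_le (col n)
    (b := (H l + 1) ^ (P (l + 1) - 1 - (code (X (⋃ i, s i)) ζ' (l + 1) + 1))) ?_
  · refine h3.trans ?_
    obtain ⟨e, he⟩ := h.exists_Q
    have h4 := hc e he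
    have h5 := (h.hW e).code_lt (h.hZ e) (l + 1)
    have h6 : P (l + 1) - 1 - code (X (⋃ i, s i)) ζ' (l + 1) =
      P (l + 1) - 1 - (code (X (⋃ i, s i)) ζ' (l + 1) + 1) + 1 := by omega
    have h7 : (H q + 1) * (H l + 1) ^ (P (l + 1) - 1 - (code (X (⋃ i, s i)) ζ' (l + 1) + 1)) ≤
        (H l + 1) ^ (P (l + 1) - 1 - code (X (⋃ i, s i)) ζ' (l + 1)) := by
      rw [h6, pow_succ']
      exact Nat.mul_le_mul_right _ (Nat.succ_le_succ (H_strictMono.monotone hl))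
    exact_mod_cast h7
  · intro e he
    refine ((h.hW e).pt l n h1 h2).trans ?_
    have h4 := hc e he
    exact_mod_cast Nat.pow_le_pow_right (by omega) (by omega)

lemma blk_step (h : Ctx S Z Q q s ζ') {l : ℕ} (hl : q ≤ l)
    (hc : ∀ e, Q e → 2 * code (X (⋃ i, s i)) ζ' l + ζ' (l + 1) <
      2 * code (X (S e)) (Z e) l + Z e (l + 1)) :
    ((⋃ i, s i) ∩ Rg (l + 1)).encard ≤
      ((H l + 1) ^ (2 * P l - 1 - (2 * code (X (⋃ i, s i)) ζ' l + ζ' (l + 1))) * B (l + 1) : ℕ) ∧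
    ∀ e, Q e → code (X (⋃ i, s i)) ζ' (l + 1) < code (X (S e)) (Z e) (l + 1) := by
  have key : ((⋃ i, s i) ∩ Rg (l + 1)).encard ≤
      ((H l + 1) ^ (2 * P l - 1 - (2 * code (X (⋃ i, s i)) ζ' l + ζ' (l + 1))) *
        B (l + 1) : ℕ) := by
    have h3 := h.union_le (Rg (l + 1)) (b := (H l + 1) ^
      (2 * P l - 1 - (2 * code (X (⋃ i, s i)) ζ' l + ζ' (l + 1) + 1)) * B (l + 1)) ?_
    · refine h3.trans ?_
      obtain ⟨e, he⟩ := h.exists_Q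
      have h4 := hc e he
      have h5 := (h.hW e).zcode_lt (h.hZ e) l
      have h6 : 2 * P l - 1 - (2 * code (X (⋃ i, s i)) ζ' l + ζ' (l + 1)) =
        2 * P l - 1 - (2 * code (X (⋃ i, s i)) ζ' l + ζ' (l + 1) + 1) + 1 := by omega
      have h7 : (H q + 1) * ((H l + 1) ^
          (2 * P l - 1 - (2 * code (X (⋃ i, s i)) ζ' l + ζ' (l + 1) + 1)) * B (l + 1)) ≤
          (H l + 1) ^ (2 * P l - 1 - (2 * code (X (⋃ i, s i)) ζ' l + ζ' (l + 1))) *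
            B (l + 1) := by
        rw [h6, pow_succ', ← mul_assoc]
        refine Nat.mul_le_mul_right _ (Nat.mul_le_mul_right _ ?_)
        exact Nat.succ_le_succ (H_strictMono.monotone hl)
      exact_mod_cast h7
    · intro e he
      refine ((h.hW e).blk l).trans ?_
      have h4 := hc e he
      have h8 : (H l + 1) ^ (2 * P l - 1 - (2 * code (X (S e)) (Z e) l + Z e (l + 1))) *
          B (l + 1) ≤ (H l + 1) ^
          (2 * P l - 1 - (2 * code (X (⋃ i, s i)) ζ' l + ζ' (l + 1) + 1)) * B (l + 1) :=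
        Nat.mul_le_mul_right _ (Nat.pow_le_pow_right (by omega) (by omega))
      exact_mod_cast h8
  refine ⟨key, fun e he => code_succ_lt (hc e he) (div_le_of_le ?_)⟩
  have hfin : ((⋃ i, s i) ∩ Rg (l + 1)).Finite := Set.finite_of_encard_le_coe key
  rw [← hfin.cast_ncard_eq] at key
  have key' : X (⋃ i, s i) (l + 1) ≤ (H l + 1) ^
      (2 * P l - 1 - (2 * code (X (⋃ i, s i)) ζ' l + ζ' (l + 1))) * B (l + 1) := by
    exact_mod_cast key
  exact key'.trans (Nat.mul_le_mul_right _ (le_kap _ _))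

/-- all levels after a strict inequality -/
lemma after (h : Ctx S Z Q q s ζ') {l₀ : ℕ} (hl₀ : q ≤ l₀)
    (h0 : ∀ e, Q e → 2 * code (X (⋃ i, s i)) ζ' l₀ + ζ' (l₀ + 1) <
      2 * code (X (S e)) (Z e) l₀ + Z e (l₀ + 1)) {l : ℕ} (hl : l₀ ≤ l) :
    ∀ e, Q e → 2 * code (X (⋃ i, s i)) ζ' l + ζ' (l + 1) <
      2 * code (X (S e)) (Z e) l + Z e (l + 1) := by
  induction l, hl using Nat.le_induction with
  | base => exact h0
  | succ l hl ih =>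
    intro e he
    have h1 := (h.blk_step (hl₀.trans hl) ih).2 e he
    have h2 := h.hζ (l + 1 + 1)
    omega

end Ctx

/-- the blocks of index at most `q` are controlled by a single limit -/
lemma before {S : (ℕ → ℕ) → Set (ℕ × ℕ)} {Z : (ℕ → ℕ) → ℕ → ℕ} {Q : (ℕ → ℕ) → Prop} {q : ℕ}
    {ζ' a z : ℕ → ℕ} {σ₀ : List ℕ} {s₀ s' : Set (ℕ × ℕ)}
    (hW : ∀ e, InW (Z e) (S e)) (hs₀ : InLim S σ₀ Q s₀)
    (heq : ∀ p : ℕ × ℕ, p.1 < rho (q + 1) → (p ∈ s' ↔ p ∈ s₀))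
    (hQ : ∀ e, Q e → ∀ i, i ≤ q → X (S e) i = a i ∧ Z e i = z i)
    (hζ' : ∀ i, i ≤ q → ζ' i = z i) :
    s' ∩ Rg 0 = ∅ ∧ (∀ i, i ≤ q → X s' i ≤ a i) ∧
    (∀ l, l < q → (s' ∩ Rg (l + 1)).encard ≤
      ((H l + 1) ^ (2 * P l - 1 - (2 * code (X s') ζ' l + ζ' (l + 1))) * B (l + 1) : ℕ)) ∧
    (∀ l, l < q → ∀ n, rho (l + 1) ≤ n → n < rho (l + 2) → (s' ∩ col n).encard ≤
      ((H l + 1) ^ (P (l + 1) - 1 - code (X s') ζ' (l + 1)) : ℕ)) := by
  obtain ⟨e₀, he₀⟩ := hs₀.frequently.exists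
  have hRg : ∀ l, l ≤ q → s' ∩ Rg l = s₀ ∩ Rg l := by
    intro l hl
    ext p
    constructor
    · rintro ⟨h1, h2⟩
      exact ⟨(heq p (h2.2.trans_le (rho_strictMono.monotone (by omega)))).1 h1, h2⟩
    · rintro ⟨h1, h2⟩
      exact ⟨(heq p (h2.2.trans_le (rho_strictMono.monotone (by omega)))).2 h1, h2⟩
  have hcol : ∀ n, n < rho (q + 1) → s' ∩ col n = s₀ ∩ col n := by
    intro n hn
    ext p
    constructor
    · rintro ⟨h1, h2⟩
      have h2' : p.1 = n := h2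
      exact ⟨(heq p (by omega)).1 h1, h2⟩
    · rintro ⟨h1, h2⟩
      have h2' : p.1 = n := h2
      exact ⟨(heq p (by omega)).2 h1, h2⟩
  have hE : ∀ i, i ≤ q → (s' ∩ Rg i).encard ≤ a i := by
    intro i hi
    rw [hRg i hi]
    apply hs₀.bound
    intro e he
    rw [← ((hW e).finite_Rg i).cast_ncard_eq]
    exact_mod_cast ((hQ e he i hi).1).le
  have hX : ∀ i, i ≤ q → X s' i ≤ a i := by
    intro i hi
    have h1 := hE i hi
    have hfin : (s' ∩ Rg i).Finite := Set.finite_of_encard_le_coe h1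
    rw [← hfin.cast_ncard_eq] at h1
    exact_mod_cast h1
  have hX' : ∀ i, i ≤ q → X s' i ≤ X (S e₀) i := fun i hi => by
    rw [(hQ e₀ he₀ i hi).1]; exact hX i hi
  have hζ'' : ∀ i, i ≤ q → ζ' i ≤ Z e₀ i := fun i hi => by
    rw [(hQ e₀ he₀ i hi).2, hζ' i hi]
  refine ⟨?_, hX, fun l hl => ?_, fun l hl n h1 h2 => ?_⟩
  · have h1 := hE 0 (Nat.zero_le _)
    rw [← (hQ e₀ he₀ 0 (Nat.zero_le _)).1, X_zero (hW e₀)] at h1
    simpa using h1
  · refine (hE (l + 1) hl).trans ?_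
    have h1 := (hW e₀).X_le l
    rw [(hQ e₀ he₀ (l + 1) hl).1] at h1
    have h2 : code (X s') ζ' l ≤ code (X (S e₀)) (Z e₀) l :=
      code_mono (fun i hi => hX' i (by omega)) fun i hi => hζ'' i (by omega)
    have h3 := hζ'' (l + 1) hl
    have h4 : (H l + 1) ^ (2 * P l - 1 - (2 * code (X (S e₀)) (Z e₀) l + Z e₀ (l + 1))) *
        B (l + 1) ≤ (H l + 1) ^ (2 * P l - 1 - (2 * code (X s') ζ' l + ζ' (l + 1))) *
        B (l + 1) :=
      Nat.mul_le_mul_right _ (Nat.pow_le_pow_right (by omega) (by omega))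
    exact_mod_cast h1.trans h4
  · rw [hcol n (h2.trans_le (rho_strictMono.monotone (by omega)))]
    apply hs₀.bound
    intro e he
    refine ((hW e).pt l n h1 h2).trans ?_
    have h3 : code (X s') ζ' (l + 1) ≤ code (X (S e)) (Z e) (l + 1) :=
      code_mono (fun i hi => by rw [(hQ e he i (by omega)).1]; exact hX i (by omega))
        fun i hi => by rw [(hQ e he i (by omega)).2, hζ' i (by omega)]
    exact_mod_cast Nat.pow_le_pow_right (by omega) (by omega)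

end SelGamma
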