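import Pool.Agent.Lib.MP_46bd4a_lc.Core

/-!
# The parameters of the construction
-/

open Filter

namespace SelGamma

/-- the pairs `(H l, P l)` -/
def hp : ℕ → ℕ × ℕ
  | 0 => (1, 1)
  | l + 1 => (((hp l).1 + 1) ^ (2 * (hp l).2 * (16 * ((hp l).1 + 1) ^ (2 * (hp l).2) + 1)),
      2 * (hp l).2 * (16 * ((hp l).1 + 1) ^ (2 * (hp l).2) + 1))

/-- the value of `g` on the `l`-th block -/
def H (l : ℕ) : ℕ := (hp l).1

/-- the number of codes at level `l` -/
def P (l : ℕ) : ℕ := (hp l).2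

/-- the maximal density on block `l + 1` -/
def kap (l : ℕ) : ℕ := (H l + 1) ^ (2 * P l)

lemma H_zero : H 0 = 1 := rfl
lemma P_zero : P 0 = 1 := rfl
lemma P_succ (l : ℕ) : P (l + 1) = 2 * P l * (16 * kap l + 1) := rfl
lemma H_succ (l : ℕ) : H (l + 1) = (H l + 1) ^ P (l + 1) := rfl

/-- the pairs (length of block `l`, sum over blocks `1..l` of density times length) -/
def bt : ℕ → ℕ × ℕ
  | 0 => (64 * (H 0 + 1) * kap 0, 0)
  | l + 1 => (16 * (bt l).2 + 64 * (H (l + 1) + 1) * kap (l + 1),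
      (bt l).2 + kap l * (16 * (bt l).2 + 64 * (H (l + 1) + 1) * kap (l + 1)))

/-- the length of block `l` -/
def B (l : ℕ) : ℕ := (bt l).1

/-- the maximal total size on blocks `1..l` -/
def TT (l : ℕ) : ℕ := (bt l).2

lemma B_zero : B 0 = 64 * (H 0 + 1) * kap 0 := rfl
lemma B_succ (l : ℕ) : B (l + 1) = 16 * TT l + 64 * (H (l + 1) + 1) * kap (l + 1) := rfl
lemma TT_zero : TT 0 = 0 := rfl
lemma TT_succ (l : ℕ) : TT (l + 1) = TT l + kap l * B (l + 1) := rfl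

/-- the start of block `l` -/
def rho : ℕ → ℕ
  | 0 => 0
  | l + 1 => rho l + B l

lemma rho_zero : rho 0 = 0 := rfl
lemma rho_succ (l : ℕ) : rho (l + 1) = rho l + B l := rfl

lemma P_pos (l : ℕ) : 1 ≤ P l := by
  induction l with
  | zero => exact le_rfl
  | succ l ih =>
    rw [P_succ]
    have : 0 < 2 * P l * (16 * kap l + 1) := by positivity
    omega

lemma kap_pos (l : ℕ) : 1 ≤ kap l := Nat.one_le_pow _ _ (by omega)

lemma H_lt_succ (l : ℕ) : H l < H (l + 1) := by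
  rw [H_succ]
  calc H l < H l + 1 := by omega
    _ = (H l + 1) ^ 1 := by ring
    _ ≤ (H l + 1) ^ P (l + 1) := Nat.pow_le_pow_right (by omega) (P_pos _)

lemma H_strictMono : StrictMono H := strictMono_nat_of_lt_succ H_lt_succ

lemma H_pos (l : ℕ) : 1 ≤ H l := by
  have := H_strictMono.monotone (Nat.zero_le l)
  rwa [H_zero] at this

lemma B_ge (l : ℕ) : 64 * (H l + 1) * kap l ≤ B l := by
  cases l with
  | zero => exact le_rfl
  | succ l => rw [B_succ]; omega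

lemma TT_le (l : ℕ) : 16 * TT l ≤ B (l + 1) := by rw [B_succ]; omega

lemma B_pos (l : ℕ) : 1 ≤ B l := by
  refine le_trans ?_ (B_ge l)
  have := kap_pos l
  have : 0 < 64 * (H l + 1) * kap l := by positivity
  omega

lemma rho_lt_succ (l : ℕ) : rho l < rho (l + 1) := by
  have := B_pos l
  rw [rho_succ]; omega

lemma rho_strictMono : StrictMono rho := strictMono_nat_of_lt_succ rho_lt_succ

/-- the index of the block of `n` -/
def blk (n : ℕ) : ℕ := Nat.findGreatest (fun l => rho l ≤ n) n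

lemma rho_blk (n : ℕ) : rho (blk n) ≤ n :=
  Nat.findGreatest_spec (P := fun l => rho l ≤ n) (Nat.zero_le n) (by simp [rho_zero])

lemma lt_rho_blk (n : ℕ) : n < rho (blk n + 1) := by
  by_contra h
  push Not at h
  have h1 : blk n + 1 ≤ rho (blk n + 1) := rho_strictMono.le_apply
  have h2 : blk n + 1 ≤ blk n := Nat.le_findGreatest (P := fun l => rho l ≤ n) (h1.trans h) h
  omega

lemma blk_eq {n l : ℕ} (h1 : rho l ≤ n) (h2 : n < rho (l + 1)) : blk n = l := by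
  have h3 := rho_blk n
  have h4 := lt_rho_blk n
  have h5 : l < blk n + 1 := rho_strictMono.lt_iff_lt.1 (h1.trans_lt h4)
  have h6 : blk n < l + 1 := rho_strictMono.lt_iff_lt.1 (h3.trans_lt h2)
  omega

/-- the function of the counterexample -/
def gg (n : ℕ) : ℕ := H (blk n)

lemma gg_pos (n : ℕ) : 1 ≤ gg n := H_pos _

lemma gg_tendsto : Tendsto gg atTop atTop := by
  refine tendsto_atTop.2 fun b => ?_
  filter_upwards [eventually_ge_atTop (rho b)] with n hn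
  have h1 : b < blk n + 1 := rho_strictMono.lt_iff_lt.1 (hn.trans_lt (lt_rho_blk n))
  calc b ≤ blk n := by omega
    _ ≤ H (blk n) := H_strictMono.le_apply

/-- the points of block `l` -/
def Rg (l : ℕ) : Set (ℕ × ℕ) := {p | rho l ≤ p.1 ∧ p.1 < rho (l + 1)}

/-- a column -/
def col (n : ℕ) : Set (ℕ × ℕ) := {p | p.1 = n}

/-- the size of a slalom on a block -/
noncomputable def X (s : Set (ℕ × ℕ)) (l : ℕ) : ℕ := (s ∩ Rg l).ncard

/-- the code of level `l` -/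
def code (x ζ : ℕ → ℕ) : ℕ → ℕ
  | 0 => 0
  | l + 1 => (2 * code x ζ l + ζ (l + 1)) * (16 * kap l + 1) + 16 * x (l + 1) / B (l + 1)

lemma code_zero (x ζ : ℕ → ℕ) : code x ζ 0 = 0 := rfl
lemma code_succ (x ζ : ℕ → ℕ) (l : ℕ) : code x ζ (l + 1) =
    (2 * code x ζ l + ζ (l + 1)) * (16 * kap l + 1) + 16 * x (l + 1) / B (l + 1) := rfl

lemma code_mono {x x' ζ ζ' : ℕ → ℕ} {l : ℕ} (hx : ∀ i, i ≤ l → x' i ≤ x i)
    (hζ : ∀ i, i ≤ l → ζ' i ≤ ζ i) : code x' ζ' l ≤ code x ζ l := by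
  induction l with
  | zero => exact le_rfl
  | succ l ih =>
    have h1 := ih (fun i hi => hx i (by omega)) (fun i hi => hζ i (by omega))
    have h2 := hζ (l + 1) le_rfl
    have h3 := hx (l + 1) le_rfl
    rw [code_succ, code_succ]
    gcongr

lemma code_congr {x x' ζ ζ' : ℕ → ℕ} {l : ℕ} (hx : ∀ i, i ≤ l → x' i = x i)
    (hζ : ∀ i, i ≤ l → ζ' i = ζ i) : code x' ζ' l = code x ζ l :=
  le_antisymm (code_mono (fun i hi => (hx i hi).le) fun i hi => (hζ i hi).le)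
    (code_mono (fun i hi => (hx i hi).ge) fun i hi => (hζ i hi).ge)

/-- a strict inequality of the leading digits gives one of the codes -/
lemma code_succ_lt {x x' ζ ζ' : ℕ → ℕ} {l : ℕ}
    (h : 2 * code x' ζ' l + ζ' (l + 1) < 2 * code x ζ l + ζ (l + 1))
    (hx : 16 * x' (l + 1) / B (l + 1) ≤ 16 * kap l) : code x' ζ' (l + 1) < code x ζ (l + 1) := by
  rw [code_succ, code_succ]
  calc (2 * code x' ζ' l + ζ' (l + 1)) * (16 * kap l + 1) + 16 * x' (l + 1) / B (l + 1)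
      < (2 * code x' ζ' l + ζ' (l + 1)) * (16 * kap l + 1) + (16 * kap l + 1) := by omega
    _ = (2 * code x' ζ' l + ζ' (l + 1) + 1) * (16 * kap l + 1) := by ring
    _ ≤ (2 * code x ζ l + ζ (l + 1)) * (16 * kap l + 1) := Nat.mul_le_mul_right _ h
    _ ≤ _ := Nat.le_add_right _ _

lemma code_lt {x ζ : ℕ → ℕ} {l : ℕ} (hζ : ∀ i, ζ i ≤ 1)
    (hx : ∀ i, i + 1 ≤ l → 16 * x (i + 1) / B (i + 1) ≤ 16 * kap i) : code x ζ l < P l := by
  induction l with
  | zero => simp [code_zero, P_zero]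
  | succ l ih =>
    have h1 := ih fun i hi => hx i (by omega)
    have h2 := hζ (l + 1)
    have h3 := hx l le_rfl
    rw [code_succ, P_succ]
    calc (2 * code x ζ l + ζ (l + 1)) * (16 * kap l + 1) + 16 * x (l + 1) / B (l + 1)
      < (2 * code x ζ l + ζ (l + 1)) * (16 * kap l + 1) + (16 * kap l + 1) := by omega
    _ = (2 * code x ζ l + ζ (l + 1) + 1) * (16 * kap l + 1) := by ring
    _ ≤ 2 * P l * (16 * kap l + 1) := Nat.mul_le_mul_right _ (by omega)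

/-- The slaloms allowed for a sequence of digits `ζ`. -/
structure InW (ζ : ℕ → ℕ) (s : Set (ℕ × ℕ)) : Prop where
  zero : s ∩ Rg 0 = ∅
  blk : ∀ l, (s ∩ Rg (l + 1)).encard ≤
    ((H l + 1) ^ (2 * P l - 1 - (2 * code (X s) ζ l + ζ (l + 1))) * B (l + 1) : ℕ)
  pt : ∀ l n, rho (l + 1) ≤ n → n < rho (l + 2) → (s ∩ col n).encard ≤
    ((H l + 1) ^ (P (l + 1) - 1 - code (X s) ζ (l + 1)) : ℕ)

/-- The slaloms used in the construction. -/
def Slm (s : Set (ℕ × ℕ)) : Prop :=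
  ∃ ζ : ℕ → ℕ, (∀ l, ζ l ≤ 1) ∧ {l | ζ l = 0}.Finite ∧ InW ζ s

lemma X_zero {ζ : ℕ → ℕ} {s : Set (ℕ × ℕ)} (h : InW ζ s) : X s 0 = 0 := by
  simp [X, h.zero]

lemma InW.finite_Rg {ζ : ℕ → ℕ} {s : Set (ℕ × ℕ)} (h : InW ζ s) (l : ℕ) :
    (s ∩ Rg l).Finite := by
  cases l with
  | zero => rw [h.zero]; exact Set.finite_empty
  | succ l => exact Set.finite_of_encard_le_coe (h.blk l)

lemma InW.X_le {ζ : ℕ → ℕ} {s : Set (ℕ × ℕ)} (h : InW ζ s) (l : ℕ) :
    X s (l + 1) ≤ (H l + 1) ^ (2 * P l - 1 - (2 * code (X s) ζ l + ζ (l + 1))) * B (l + 1) := by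
  have := h.blk l
  rw [← (h.finite_Rg (l + 1)).cast_ncard_eq] at this
  exact_mod_cast this

lemma le_kap (l k : ℕ) : (H l + 1) ^ (2 * P l - 1 - k) ≤ kap l :=
  Nat.pow_le_pow_right (by omega) (by omega)

lemma InW.X_le' {ζ : ℕ → ℕ} {s : Set (ℕ × ℕ)} (h : InW ζ s) (l : ℕ) :
    X s (l + 1) ≤ kap l * B (l + 1) := (h.X_le l).trans (Nat.mul_le_mul_right _ (le_kap _ _))

lemma div_le_of_le {x l : ℕ} (h : x ≤ kap l * B (l + 1)) : 16 * x / B (l + 1) ≤ 16 * kap l := by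
  apply Nat.div_le_of_le_mul
  calc 16 * x ≤ 16 * (kap l * B (l + 1)) := Nat.mul_le_mul_left _ h
    _ = B (l + 1) * (16 * kap l) := by ring

lemma InW.code_lt {ζ : ℕ → ℕ} {s : Set (ℕ × ℕ)} (h : InW ζ s) (hζ : ∀ i, ζ i ≤ 1) (l : ℕ) :
    code (X s) ζ l < P l := SelGamma.code_lt hζ fun i _ => div_le_of_le (h.X_le' i)

lemma InW.zcode_lt {ζ : ℕ → ℕ} {s : Set (ℕ × ℕ)} (h : InW ζ s) (hζ : ∀ i, ζ i ≤ 1) (l : ℕ) :
    2 * code (X s) ζ l + ζ (l + 1) < 2 * P l := by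
  have h1 := h.code_lt hζ l
  have h2 := hζ (l + 1)
  omega

/-- the slaloms are bounded by `gg` -/
lemma InW.col_le {ζ : ℕ → ℕ} {s : Set (ℕ × ℕ)} (h : InW ζ s) (n : ℕ) :
    (s ∩ col n).encard ≤ gg n := by
  have h1 := rho_blk n
  have h2 := lt_rho_blk n
  rw [gg]
  rcases hb : SelGamma.blk n with _ | l
  · rw [hb] at h1 h2
    have h3 : s ∩ col n ⊆ s ∩ Rg 0 := by
      rintro p ⟨hp, hp'⟩
      have hp' : p.1 = n := hp'
      exact ⟨hp, by change rho 0 ≤ p.1 ∧ p.1 < rho 1; rw [hp']; exact ⟨h1, h2⟩⟩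
    rw [h.zero] at h3
    rw [Set.subset_empty_iff.1 h3]
    simp
  · rw [hb] at h1 h2
    refine (h.pt l n h1 h2).trans ?_
    rw [H_succ]
    exact_mod_cast Nat.pow_le_pow_right (by omega) (by omega)

end SelGamma
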