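import Pool.Agent.Lib.MP_46bd4a_lc.Member

/-!
# The weight argument
-/

open Filter

namespace SelGamma

/-- the blocks of index at most `q + 1` -/
def TR (q : ℕ) : Set (ℕ × ℕ) := {p | p.1 < rho (q + 2)}

/-- the weight of a slalom at stage `q` -/
noncomputable def wt (q : ℕ) (s : Set (ℕ × ℕ)) : ℕ :=
  ∑ i ∈ Finset.range (q + 1), X s i + 16 * (H q + 1) * X s (q + 1) / B (q + 1)

lemma Rg_subset_TR {q i : ℕ} (hi : i ≤ q + 1) : Rg i ⊆ TR q := fun _ hp =>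
  hp.2.trans_le (rho_strictMono.monotone (by omega))

lemma X_mono_of {q i : ℕ} (hi : i ≤ q + 1) {s s' : Set (ℕ × ℕ)} (h : s ∩ TR q ⊆ s')
    (hf : (s' ∩ TR q).Finite) : X s i ≤ X s' i :=
  Set.ncard_le_ncard (fun _ hp => ⟨h ⟨hp.1, Rg_subset_TR hi hp.2⟩, hp.2⟩)
    (hf.subset fun _ hp => ⟨hp.1, Rg_subset_TR hi hp.2⟩)

lemma wt_mono {q : ℕ} {s s' : Set (ℕ × ℕ)} (h : s ∩ TR q ⊆ s') (hf : (s' ∩ TR q).Finite) :
    wt q s ≤ wt q s' := by
  refine add_le_add (Finset.sum_le_sum fun i hi => ?_) (Nat.div_le_div_right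
    (Nat.mul_le_mul_left _ (X_mono_of le_rfl h hf)))
  rw [Finset.mem_range] at hi
  exact X_mono_of (by omega) h hf

/-- equality of weights means: nothing is lost on the blocks `≤ q`, and little on block `q + 1` -/
lemma wt_eq {q : ℕ} {s s' : Set (ℕ × ℕ)} (h : s ∩ TR q ⊆ s') (hf : (s' ∩ TR q).Finite)
    (hw : wt q s' = wt q s) :
    (∀ p : ℕ × ℕ, p.1 < rho (q + 1) → (p ∈ s' ↔ p ∈ s)) ∧
    16 * (H q + 1) * (X s' (q + 1) - X s (q + 1)) < B (q + 1) := by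
  have h1 : ∀ i ∈ Finset.range (q + 1), X s i ≤ X s' i := fun i hi =>
    X_mono_of (by rw [Finset.mem_range] at hi; omega) h hf
  have h2 : X s (q + 1) ≤ X s' (q + 1) := X_mono_of le_rfl h hf
  have h3 : 16 * (H q + 1) * X s (q + 1) / B (q + 1) ≤
      16 * (H q + 1) * X s' (q + 1) / B (q + 1) := Nat.div_le_div_right (Nat.mul_le_mul_left _ h2)
  have h4 : ∑ i ∈ Finset.range (q + 1), X s i ≤ ∑ i ∈ Finset.range (q + 1), X s' i :=
    Finset.sum_le_sum h1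
  unfold wt at hw
  have h5 : ∑ i ∈ Finset.range (q + 1), X s i = ∑ i ∈ Finset.range (q + 1), X s' i := by omega
  have h6 : 16 * (H q + 1) * X s (q + 1) / B (q + 1) =
      16 * (H q + 1) * X s' (q + 1) / B (q + 1) := by omega
  have h7 := (Finset.sum_eq_sum_iff_of_le h1).1 h5
  constructor
  · intro p hp
    have hb1 := rho_blk p.1
    have hb2 := lt_rho_blk p.1
    have hb : blk p.1 < q + 1 := rho_strictMono.lt_iff_lt.1 (hb1.trans_lt hp)
    have hpR : p ∈ Rg (blk p.1) := ⟨hb1, hb2⟩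
    have hsub : s ∩ Rg (blk p.1) ⊆ s' ∩ Rg (blk p.1) := fun p hp =>
      ⟨h ⟨hp.1, Rg_subset_TR (by omega) hp.2⟩, hp.2⟩
    have hfin : (s' ∩ Rg (blk p.1)).Finite :=
      hf.subset fun p hp => ⟨hp.1, Rg_subset_TR (by omega) hp.2⟩
    have heq := Set.eq_of_subset_of_ncard_le hsub (h7 _ (Finset.mem_range.2 hb)).ge hfin
    constructor
    · intro h8
      have : p ∈ s ∩ Rg (blk p.1) := by rw [heq]; exact ⟨h8, hpR⟩
      exact this.1
    · intro h8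
      exact (hsub ⟨h8, hpR⟩).1
  · obtain ⟨d, hd⟩ : ∃ d, X s' (q + 1) = X s (q + 1) + d := ⟨_, (Nat.add_sub_of_le h2).symm⟩
    rw [hd, Nat.add_sub_cancel_left]
    by_contra hcon
    push Not at hcon
    have h8 : 16 * (H q + 1) * X s (q + 1) / B (q + 1) + 1 ≤
        16 * (H q + 1) * X s' (q + 1) / B (q + 1) := by
      rw [← Nat.add_div_right _ (B_pos (q + 1)), hd]
      refine Nat.div_le_div_right ?_
      rw [mul_add (16 * (H q + 1))]
      exact Nat.add_le_add_left hcon _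
    omega

/-- the union of slaloms with the same weight is small on block `q + 1` -/
lemma X_union_lt {q : ℕ} {s₀ : Set (ℕ × ℕ)} {s : Fin (H q + 1) → Set (ℕ × ℕ)}
    (h : ∀ i, s₀ ∩ TR q ⊆ s i) (hf : ∀ i, (s i ∩ TR q).Finite) (hf₀ : (s₀ ∩ TR q).Finite)
    (hw : ∀ i, wt q (s i) = wt q s₀) :
    16 * X (⋃ i, s i) (q + 1) < 16 * X s₀ (q + 1) + B (q + 1) := by
  classical
  have hR : Rg (q + 1) ⊆ TR q := Rg_subset_TR le_rfl
  have hfi : ∀ i, (s i ∩ Rg (q + 1)).Finite := fun i =>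
    (hf i).subset fun p hp => ⟨hp.1, hR hp.2⟩
  have hf0 : (s₀ ∩ Rg (q + 1)).Finite := hf₀.subset fun p hp => ⟨hp.1, hR hp.2⟩
  have hD : ∀ i, ((s i ∩ Rg (q + 1)) \ (s₀ ∩ Rg (q + 1))).ncard =
      X (s i) (q + 1) - X s₀ (q + 1) := fun i =>
    Set.ncard_sdiff (fun p hp => ⟨h i ⟨hp.1, hR hp.2⟩, hp.2⟩) hf0
  have hsub : (⋃ i, s i) ∩ Rg (q + 1) ⊆ (s₀ ∩ Rg (q + 1)) ∪
      ⋃ i ∈ (Finset.univ : Finset (Fin (H q + 1))),
        ((s i ∩ Rg (q + 1)) \ (s₀ ∩ Rg (q + 1))) := by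
    rintro p ⟨hp, hpR⟩
    obtain ⟨i, hi⟩ := Set.mem_iUnion.1 hp
    by_cases hp0 : p ∈ s₀
    · exact Or.inl ⟨hp0, hpR⟩
    · exact Or.inr (Set.mem_iUnion₂.2 ⟨i, Finset.mem_univ _, ⟨hi, hpR⟩, fun h => hp0 h.1⟩)
  have hle : X (⋃ i, s i) (q + 1) ≤ X s₀ (q + 1) + ∑ i, (X (s i) (q + 1) - X s₀ (q + 1)) := by
    refine (Set.ncard_le_ncard hsub (hf0.union (Set.Finite.biUnion (Finset.finite_toSet _)
      fun i _ => (hfi i).subset Set.sdiff_subset))).trans ?_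
    refine (Set.ncard_union_le _ _).trans (Nat.add_le_add_left ?_ _)
    refine (Finset.set_ncard_biUnion_le _ _).trans ?_
    exact Finset.sum_le_sum fun i _ => (hD i).le
  have hlt : ∀ i ∈ (Finset.univ : Finset (Fin (H q + 1))),
      16 * (H q + 1) * (X (s i) (q + 1) - X s₀ (q + 1)) < B (q + 1) := fun i _ =>
    (wt_eq (h i) (hf i) (hw i)).2
  have hsum := Finset.sum_lt_sum_of_nonempty ⟨0, Finset.mem_univ _⟩ hlt
  rw [← Finset.mul_sum, Finset.sum_const, Finset.card_univ, Fintype.card_fin, smul_eq_mul] at hsum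
  have h9 : 16 * ∑ i, (X (s i) (q + 1) - X s₀ (q + 1)) < B (q + 1) := by
    by_contra hcon
    push Not at hcon
    have : (H q + 1) * B (q + 1) ≤ 16 * (H q + 1) * ∑ i, (X (s i) (q + 1) - X s₀ (q + 1)) := by
      calc (H q + 1) * B (q + 1) ≤ (H q + 1) * (16 * ∑ i, (X (s i) (q + 1) - X s₀ (q + 1))) :=
            Nat.mul_le_mul_left _ hcon
        _ = _ := by ring
    omega
  omega

end SelGamma
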